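import Pool.Agent.Lib.MP_f79ffc_lc.U.T.KG
import Pool.Agent.Lib.MP_f79ffc_lc.U.P.PDefs

/-!
What the token step uses of the generator, and the intermediate structures of the token step.
-/

namespace Pool.Agent.Lib.MP_f79ffc_lc.U

open Pool.Agent.Lib.MP_5d9fac_lc Pool.Agent.Lib.MP_f79ffc_lc.R Cardinal

variable {R J L I : Type} [Preorder R] [Preorder J] [Preorder L] [Preorder I]

/-- the exports of the generator; `Φ u ⊤` is the landing set of the node `u` -/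
structure Gen (τ : Tp R J L) (Sk : Sys (KK τ)) [∀ u, Fact (CCC (Sk.X u))] where
  mr : ∀ i, Hm (τ.St.X (τ.ρ i)) (Sk.X (.root i))
  mr_bij : ∀ i, Function.Bijective (mr i)
  mr_comm : ∀ {i i' : R} (h : i ≤ i') (y : τ.St.X (τ.ρ i)),
    Sk.e (KK.RR h) (mr i y) = mr i' (τ.St.e (τ.ρm h) y)
  Φ : ∀ u : KK τ, τ.Tk.X u → RX (Sk.X u)
  Φ_sSup : ∀ u (s : Set (τ.Tk.X u)), Φ u (sSup s) = ⨆ y ∈ s, Φ u y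
  Φ_inf : ∀ u (y z : τ.Tk.X u), Φ u (y ⊓ z) = Φ u y ⊓ Φ u z
  Φ_root : ∀ i y, Φ (.root i) y = ri (mr i y)
  Φ_N : Φ (.nd .N) ⊤ = ⊤
  Φ_C : Φ (.nd .C0) ⊤ = ⊤
  Φ_up : ∀ {i : R} {v : KK τ} (h : (.root i : KK τ) ≤ v) (y : τ.St.X (τ.ρ i)),
    Φ v (τ.Tk.e h y) = Φ v ⊤ ⊓ ri (Sk.e h (mr i y))
  Φ_NM : ∀ w, Φ (.nd .M) w = Φ (.nd .M) ⊤ ⊓ rmap (Sk.e KK.NM) (Φ (.nd .N) w)
  Φ_NY : ∀ w, Φ (.nd .Y) w = Φ (.nd .Y) ⊤ ⊓ rmap (Sk.e KK.NY) (Φ (.nd .N) w)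
  Φ_EE : ∀ {j j' : J} (h : j ≤ j') (w : τ.W j),
    Φ (.nd (.E j')) (τ.eW h w) = rmap (Sk.e (KK.EE h)) (Φ (.nd (.E j)) w)
  Φ_EY : ∀ {j : J} (h : j ≤ τ.top) (w : τ.W j),
    Φ (.nd .Y) (τ.eW h w) = rmap (Sk.e (KK.EY h)) (Φ (.nd (.E j)) w)
  β : List Bool → ℕ → Sk.X (.nd .M)
  Φ_CM : ∀ t k w, ri (β t k) ⊓ sh t (Φ (.nd .M) w) =
    ri (β t k) ⊓ rmap (Sk.e KK.CM) (sh (root k) (Φ (.nd .C0) w))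
  cover : Φ (.nd .M) ⊤ ≤ ⨆ t, ⨆ k, ri (β t k) ⊓ cyl t
  disj : ∀ t k t' k', ri (β t k) ⊓ cyl t ⊓ (ri (β t' k') ⊓ cyl t') ≠ ⊥ → t = t' ∧ k = k'
  β_top : ∀ k, ⨆ t, β t k = ⊤
  θ : ℕ → ℕ → Sk.X (.nd .M)
  θ_le : ∀ n k, ri (θ n k) ⊓ rg (Zs k n) ≤ Φ (.nd .M) ⊤
  T : ℕ → ℕ → Sk.X (.nd .M)
  T_mat : Mat T
  T_unb : Unb (Sk.e KK.NM) T
  T_le : ∀ n k, T n k ≤ ⨆ k', ⨆ _ : k ≤ k', θ n k'
  far : ∀ s, ∃ x : Sk.X (.nd .Y), Sk.p KK.NY x = ⊤ ∧ x ≤ Big (1 / 2) (sh s (Φ (.nd .Y) ⊤))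
  full : ∀ j (p : τ.W j),
    Sk.e (KK.RE le_rfl j) (mr τ.a (τ.pA j p)) ≤ Pos (Φ (.nd (.E j)) p)
  plab : ∀ {j j' : J} (h : j ≤ j') (p : τ.W j'), ∃ b : List Bool → Sk.X (.nd (.E j')),
    (∀ s, ri (b s) ⊓ cyl s ⊓ Φ (.nd (.E j')) ⊤ ≤ Φ (.nd (.E j')) p) ∧
      Φ (.nd (.E j)) (τ.pW h p) ≤ ⨆ s, cyl s ⊓ ri (Sk.p (KK.EE h) (b s))
  unbJ : ∀ {j j' : J} (h : j ≤ j') (t : ℕ → ℕ → τ.W j'), Mat t → Unb (τ.eW h) t → ∀ k,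
    ∃ t1 : ℕ → ℕ → Sk.X (.nd (.E j')), Mat t1 ∧ Unb (Sk.e (KK.EE h)) t1 ∧
      ∀ n l, ri (t1 n l) ⊓ cyl (root k) ⊓ Φ (.nd (.E j')) ⊤ ≤ Φ (.nd (.E j')) (t n l)
  g0 : ∀ {u : KK τ} (t : Tm (KK τ) u) (D : Dat Pc t), GoodK t D → ∀ b0 : Sk.Asg t,
    Sk.val t b0 ≠ ⊥ → Fam.All₂ (BetK β) t D b0 → ∀ DD : τ.Tk.Asg t → Prop,
    (∀ lam, τ.Tk.Coh t lam → ∃ σ, DD σ ∧ τ.Tk.val t (τ.Tk.inf t σ lam) ≠ ⊥) →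
    ∃ (b1 : Sk.Asg t) (n : ℕ), Sk.Le t b1 b0 ∧ Sk.val t b1 ≠ ⊥ ∧ ∀ r : List Bool, r.length = n →
      ∃ σ : τ.Tk.Asg t, (DD σ ∨ ¬ Fam.All (fun _ y => y ≠ ⊥) t σ) ∧
        Fam.All₂ (fun u (x : Sk.X u) (y : RX (Sk.X u)) => ri x ⊓ Φ u ⊤ ≤ y) t b1
          (Fam.map₂ (fun u (d : List Bool × Pc) z => cyl (d.1 ++ r) ⇨ Φ u z) t D σ)

/-- the input of the token step -/
structure Tin (τ : Tp R J L) (I : Type) [Preorder I] where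
  Sk : Sys (KK τ)
  ck : ∀ u, Fact (CCC (Sk.X u))
  g : Gen τ Sk
  x : Tix τ I
  S : Sys I
  cs : ∀ u, Fact (CCC (S.X u))
  K : S.K
  m : Mor Sk (S.comap x.κ x.κ_mono)
  kNM : m.Keeps KK.NM
  kEE : ∀ {j j' : J} (h : j ≤ j'), m.Keeps (KK.EE h)

attribute [instance] Tin.ck Tin.cs

namespace Tin

variable {τ : Tp R J L} (z : Tin τ I)

/-- the old system over the index set of the random step -/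
abbrev S0 : Sys z.x.TJ := z.S.comap z.x.sh z.x.sh_mono

/-- the image of the labelling maps -/
noncomputable def Φ (u : KK τ) (w : τ.Tk.X u) : RX (z.S.X (z.x.κ u)) := rmap (z.m.ι u) (z.g.Φ u w)

/-- the random step -/
structure Rnd where
  S1 : Sys z.x.TJ
  P : RXP z.S0 S1 Pc
  low_old : ∀ u, P.low (.old u) ↔ z.x.low u
  low_Y : ¬ P.low .Y
  low_E : ∀ j, ¬ P.low (.E j)
  tc_none : P.tc none = []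
  tc_some : ∀ t k, P.tc (some (t, k)) = t
  cc_CM : ∀ t k, P.cc (.old z.x.nC) (.old z.x.nM) (some (t, k)) = root k
  cc_eq : ∀ {u v : KK τ}, u ≤ v → (u = (.nd .C0) → v ≠ (.nd .M)) → ∀ l, P.cc (z.x.kj u) (z.x.kj v) l = P.tc l
  cc_N : ∀ u l, P.cc (.old z.x.nN) (.old u) l = P.tc l
  β_none : P.β (.old z.x.nM) none = ⊥
  β_some : ∀ t k, P.β (.old z.x.nM) (some (t, k)) = z.m.ι (.nd .M) (z.g.β t k)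
  v_top : ∀ u : KK τ, P.v (z.x.kj u) ⊤ = z.Φ u ⊤
  v_old : ∀ u, ¬ z.x.nM ≤ u → P.v (.old u) ⊤ = ⊤
  ι_inj : ∀ u, Function.Injective (P.ι u)
  corr : ∀ {u w : I} (h : u ≤ w) (y : z.S.X w),
    S1.p (z.x.old_mono h) (P.ι (.old w) y) = P.ι (.old u) (z.S.p h y)

end Tin

/-- the random step as a purely algebraic object -/
structure Mid {τ : Tp R J L} (x : Tix τ I) (S1 : Sys x.TJ) where
  K : S1.K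
  φ : ∀ u : KK τ, Hm (τ.Tk.X u) (S1.X (x.kj u))
  inj : ∀ u : TT τ, Function.Injective (φ u.kg)
  comm : ∀ {u v : KK τ} (h : u ≤ v) (y : τ.Tk.X u),
    S1.e (x.kj_mono h) (φ u y) = φ v (τ.Tk.e h y)
  corr : ∀ {u v : TT τ} (h : u ≤ v) (y : τ.Tk.X v.kg),
    S1.p (x.kj_mono h) (φ v.kg y) = φ u.kg (τ.Tk.p h y)
  unb : ∀ {j j' : J} (h : j ≤ j') (t : ℕ → ℕ → τ.W j'), Mat t → Unb (τ.eW h) t →
    Unb (S1.e (x.kj_mono (KK.EE h))) fun n k => φ (.nd (.E j')) (t n k)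
  g1 : ∀ {u : KK τ} (t : Tm (KK τ) u) (a : (S1.comap x.kj x.kj_mono).Asg t),
    (S1.comap x.kj x.kj_mono).val t a ≠ ⊥ → ∀ DD : τ.Tk.Asg t → Prop,
    (∀ lam, τ.Tk.Coh t lam → ∃ σ, DD σ ∧ τ.Tk.val t (τ.Tk.inf t σ lam) ≠ ⊥) →
    ∃ σ, DD σ ∧ (S1.comap x.kj x.kj_mono).val t
      ((S1.comap x.kj x.kj_mono).inf t a (Fam.map (fun u => φ u) t σ)) ≠ ⊥

end Pool.Agent.Lib.MP_f79ffc_lc.U
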