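import Pool.Agent.Lib.MP_f79ffc_lc.U.G.Phi
import Pool.Agent.Lib.MP_f79ffc_lc.U.G.G0
import Pool.Agent.Lib.MP_f79ffc_lc.U.T.Defs

/-! The generator system has the properties used by the token step. -/

namespace Pool.Agent.Lib.MP_f79ffc_lc.U.Tp

open Pool.Agent.Lib.MP_5d9fac_lc Pool.Agent.Lib.MP_f79ffc_lc.R

variable {R J L : Type} [Preorder R] [Preorder J] [Preorder L] (τ : Tp R J L)

theorem lk_of_mt {u v : KK τ} {d d' : List Bool × Pc} {x : τ.Sk.X v} (h : MtK u v d d')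
    (h' : BetK (Sk := τ.Sk) τ.be v d' x) : x ≤ τ.lk u v d.1 d'.1 := by
  rcases u with _ | _ | _ | _ | _ | _ <;> rcases v with _ | _ | _ | _ | _ | _ <;>
    first | exact le_top | exact le_iSup_of_le h le_top | skip
  obtain ⟨t, k, h1, h2⟩ := h'
  obtain ⟨r, h3, h4⟩ := h t k h1
  exact le_iSup_of_le t (le_iSup_of_le k (le_iSup_of_le r (le_iSup_of_le ⟨h4, h3⟩ h2)))

variable {τ} in
theorem head_fst {u : KK τ} (t : Tm (KK τ) u) (D : Dat Pc t) :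
    Fam.head (Y := fun _ => List Bool) t (Fam.map (fun _ d => d.1) t D) = (Fam.head t D).1 :=
  Fam.head_map (Y' := fun _ => List Bool) (fun _ (d : List Bool × Pc) => d.1) t D

theorem fit_of_good : ∀ {u : KK τ} (t : Tm (KK τ) u) (D : Dat Pc t) (b : τ.Sk.Asg t), GoodK t D →
    Fam.All₂ (BetK (Sk := τ.Sk) τ.be) t D b → τ.Fit t (Fam.map (fun _ d => d.1) t D) b
  | _, .var u, _, _, h, _ => by cases u <;> first | exact h | exact trivial
  | _, .emb t _ s, D, b, h, h' => ⟨fit_of_good t D.1 b.1 h.1 h'.1, fit_of_good s D.2 b.2 h.2.1 h'.2,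
      (τ.lk_of_mt h.2.2 (Fam.All₂.head t h'.1)).trans_eq (congrArg₂ (τ.lk _ _)
        (head_fst s D.2).symm (head_fst t D.1).symm)⟩
  | _, .prj t _ s, D, b, h, h' => ⟨fit_of_good t D.1 b.1 h.1 h'.1, fit_of_good s D.2 b.2 h.2.1 h'.2,
      (τ.lk_of_mt h.2.2 (Fam.All₂.head s h'.2)).trans_eq (congrArg₂ (τ.lk _ _)
        (head_fst t D.1).symm (head_fst s D.2).symm)⟩

variable [∀ i, Fact (CCC (τ.Sg.X i))]

/-- the labelling maps at all nodes -/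
noncomputable def phk : ∀ u : KK τ, τ.Tk.X u → RX (τ.Sk.X u)
  | .root _, y => ri y
  | .nd k, w => τ.phi k w

theorem lab_le_phi' (k : KN τ.top) (s : List Bool) (w : τ.W k.ix) :
    ri (τ.Lab k s w) ⊓ cyl s ⊓ τ.phi k ⊤ ≤ τ.phi k w := by
  rw [τ.phi_top, inf_comm, ← inf_assoc]
  exact τ.lab_le_phi k s w

theorem lak_le_phk (u : KK τ) (s : List Bool) (w : τ.Tk.X u) {x : τ.Sk.X u} (h : x ≤ τ.Lak u s w) :
    ri x ⊓ τ.phk u ⊤ ≤ cyl s ⇨ τ.phk u w := by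
  rw [le_himp_iff, inf_right_comm]
  cases u with
  | root i => exact inf_le_left.trans (inf_le_left.trans (hm_mono _ h))
  | nd k => exact (inf_le_inf_right _ (inf_le_inf_right _ (hm_mono _ h))).trans (τ.lab_le_phi' k s w)

theorem all_phk (r : List Bool) : ∀ {u : KK τ} (t : Tm (KK τ) u) (D : Dat Pc t) (b : τ.Sk.Asg t)
    (σ : τ.Tk.Asg t), τ.Sk.Le t b (Fam.map₂ (fun u s w => τ.Lak u (s ++ r) w) t
      (Fam.map (fun _ d => d.1) t D) σ) →
    Fam.All₂ (fun u (x : τ.Sk.X u) (y : RX (τ.Sk.X u)) => ri x ⊓ τ.phk u ⊤ ≤ y) t b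
      (Fam.map₂ (fun u (d : List Bool × Pc) z => cyl (d.1 ++ r) ⇨ τ.phk u z) t D σ)
  | _, .var u, _, _, _, h => τ.lak_le_phk u _ _ h
  | _, .emb t _ s, D, b, σ, h => ⟨all_phk r t D.1 b.1 σ.1 h.1, all_phk r s D.2 b.2 σ.2 h.2⟩
  | _, .prj t _ s, D, b, σ, h => ⟨all_phk r t D.1 b.1 σ.1 h.1, all_phk r s D.2 b.2 σ.2 h.2⟩

theorem phi_e_E {j : J} {k : KN τ.top} (h : KN.E j ≤ k) (w : τ.W j) :
    τ.phi k (τ.eW (KN.ix_mono h) w) = rmap (τ.eN (τ.ku_mono h)) (τ.phi (.E j) w) := by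
  rw [τ.phi_e h nofun]
  refine inf_eq_right.2 ((hm_mono _ (inf_le_left : τ.phi (.E j) w ≤ τ.land (.E j))).trans ?_)
  cases k <;> first | exact h.elim | exact (rmap_rmap (τ.Sg.e_trans _ _) τ.dd).le

theorem phi_e_N {k : KN τ.top} (h : KN.N ≤ k) (w : τ.W τ.top) :
    τ.phi k (τ.eW (KN.ix_mono h) w) = τ.phi k ⊤ ⊓ rmap (τ.eN (τ.ku_mono h)) (τ.phi .N w) := by
  rw [τ.phi_e h nofun, τ.phi_top]

theorem ri_sSup_k (u : KK τ) (s : Set (τ.Sk.X u)) : ri (sSup s) = ⨆ y ∈ s, ri y := by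
  rw [map_sSup, sSup_image]

theorem ri_inf_k (u : KK τ) (y z : τ.Sk.X u) : ri (y ⊓ z) = ri y ⊓ ri z := map_inf _ y z

/-- the exports of the generator -/
noncomputable def gen : Gen τ τ.Sk where
  mr _ := CompleteLatticeHom.id _
  mr_bij _ := Function.bijective_id
  mr_comm _ _ := rfl
  Φ := τ.phk
  Φ_sSup u s := by
    cases u with
    | root i => exact τ.ri_sSup_k (.root i) s
    | nd k => exact τ.phi_sSup k s
  Φ_inf u y z := by
    cases u with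
    | root i => exact τ.ri_inf_k (.root i) y z
    | nd k => exact τ.phi_inf k y z
  Φ_root _ _ := rfl
  Φ_N := τ.phi_top .N
  Φ_C := τ.phi_top .C0
  Φ_up {i v} h y := by
    cases v with
    | root i' => exact (inf_eq_right.2 (hm_mono (ri (X := τ.Sk.X (.root i'))) le_top)).symm
    | nd k =>
      have h1 := τ.phi_base k (τ.St.e (τ.ρm h) y)
      rw [← τ.phi_top, eA, τ.St.e_trans] at h1
      exact h1.trans (congrArg (fun z => τ.phi k ⊤ ⊓ ri z)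
        (τ.Sg.e_trans (i := .root i) (j := .root τ.a) h _ y))
  Φ_NM w := (congrArg (τ.phi .M) (τ.eW_refl _ w).symm).trans (τ.phi_e_N (k := .M) trivial w)
  Φ_NY w := (congrArg (τ.phi .Y) (τ.eW_refl _ w).symm).trans (τ.phi_e_N (k := .Y) trivial w)
  Φ_EE {_ j'} h w := τ.phi_e_E (k := .E j') h w
  Φ_EY h w := τ.phi_e_E (k := .Y) h w
  β := τ.be
  Φ_CM := τ.phi_link
  cover := ((τ.phi_top .M).trans τ.land_M).le
  disj t k t' k' h := by
    have h1 : τ.be t k ⊓ τ.be t' k' ≠ ⊥ := fun e => h (le_bot_iff.1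
      ((inf_le_inf inf_le_left inf_le_left).trans (by rw [← map_inf, e, map_bot])))
    by_cases e : t <+: t'
    · exact τ.be_disj h1 (Or.inr e)
    by_cases e' : t' <+: t
    · exact (τ.be_disj (by rwa [inf_comm]) (Or.inr e')).imp Eq.symm Eq.symm
    exact absurd (le_bot_iff.1 ((inf_le_inf inf_le_right inf_le_right).trans (cyl_disj e e').le)) h
  β_top := τ.be_sup
  θ n k := τ.eN τ.bM (τ.th n k)
  θ_le n k := by
    refine le_trans ?_ (τ.phi_top .M).ge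
    show _ ≤ (rmap (τ.eN τ.bM) τ.dd)ᶜ
    rw [dd, hm_compl, compl_compl, ← rmap_ri, ← rmap_rg (τ.eN τ.bM), ← map_inf]
    exact hm_mono _ (le_iSup₂ (f := fun n k => ri (τ.th n k) ⊓ rg (Zs k n)) n k)
  T n k := τ.eN τ.bM (τ.ge n k)
  T_mat := ⟨fun n k => hm_mono _ (τ.ge_mat.1 n k), fun n k => hm_mono _ (τ.ge_mat.2 n k)⟩
  T_unb := τ.unb_ge
  T_le n k := (map_iSup₂ (τ.eN τ.bM) fun l (_ : k ≤ l) => τ.th n l).le
  far s := ⟨τ.eN τ.bM (τ.ge 0 s.length), τ.pj_ge _, by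
    refine (hm_mono _ (τ.ge_le_Big s)).trans ?_
    rw [← Big_rmap, rmap_sh]
    exact Big_mono le_rfl (hm_mono _ (τ.phi_top .Y).ge)⟩
  full j p := τ.phi_pos (.E j) nofun p
  plab {j j'} h p := ⟨fun s => τ.Lab (.E j') s p, fun s => τ.lab_le_phi' (.E j') s p,
    (τ.phi_eq (.E j) _).le.trans (iSup₂_le fun s hs => le_iSup_of_le s (le_inf inf_le_right
      (inf_le_left.trans (inf_le_right.trans (hm_mono _ (τ.lab_pj h hs p))))))⟩
  unbJ {j j'} h t ht H k := ⟨fun n l => τ.Lab (.E j') (root k) (t n l),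
    ⟨fun n l => τ.lab_mono (.E j') _ (ht.1 n l), fun n l => τ.lab_mono (.E j') _ (ht.2 n l)⟩,
    τ.lab_unb h ht H (true_mem_root k), fun n l => τ.lab_le_phi' (.E j') _ _⟩
  g0 t D hD b0 h0 hb DD hDD := by
    obtain ⟨b1, n, h1, h2, h3⟩ := τ.G0 t _ b0 (τ.fit_of_good t D b0 hD hb) h0 {σ | DD σ} hDD
    exact ⟨b1, n, h1, h2, fun r hr => (h3 r hr).imp fun σ h => ⟨h.1, τ.all_phk r t D b1 σ h.2⟩⟩

theorem exists_gen : ∃ g : Gen τ τ.Sk, (∀ i y, g.mr i y = y) ∧ ∀ w, g.Φ (.nd .N) w = τ.phiN w :=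
  ⟨τ.gen, fun _ _ => rfl, fun _ => rfl⟩

end Pool.Agent.Lib.MP_f79ffc_lc.U.Tp
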