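import Pool.Agent.Lib.MP_f79ffc_lc.U.T.Defs
import Pool.Agent.Lib.MP_f79ffc_lc.U.P.Main

/-!
The labelling maps as homomorphisms into the algebras of the random step.
-/

namespace Pool.Agent.Lib.MP_f79ffc_lc.U

open Pool.Agent.Lib.MP_5d9fac_lc Pool.Agent.Lib.MP_f79ffc_lc.R Cardinal

variable {R J L I : Type} [Preorder R] [Preorder J] [Preorder L] [Preorder I] {τ : Tp R J L}

theorem exists_decide_var {X : Type} [CompleteBooleanAlgebra X] (a c x : X) (h : x ⊓ a ≠ ⊥) :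
    ∃ b, b ≤ a ∧ x ⊓ b ≠ ⊥ ∧ (b ≤ c ∨ b ≤ cᶜ) := by
  by_cases e : x ⊓ (a ⊓ c) = ⊥
  · refine ⟨a ⊓ cᶜ, inf_le_left, fun e' => h ?_, Or.inr inf_le_right⟩
    rw [← inf_top_eq a, ← sup_compl_eq_top (x := c), inf_sup_left, inf_sup_left, e, e', bot_sup_eq]
  · exact ⟨a ⊓ c, inf_le_left, e, Or.inl inf_le_right⟩

/-- every slot can be made to decide a given element -/
theorem Sys.exists_decide {S : Sys I} : ∀ {i : I} (t : Tm I i) (a c : S.Asg t) (x : S.X i),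
    x ⊓ S.val t a ≠ ⊥ → ∃ b : S.Asg t, S.Le t b a ∧ x ⊓ S.val t b ≠ ⊥ ∧
      Fam.All₂ (fun u (y z : S.X u) => y ≤ z ∨ y ≤ zᶜ) t b c
  | i, .var _, a, c, x, h => exists_decide_var (X := S.X i) a c x h
  | _, .emb t h s, a, c, x, H => by
    change x ⊓ (S.val t a.1 ⊓ S.e h (S.val s a.2)) ≠ ⊥ at H
    obtain ⟨b, h1, h2, h3⟩ := exists_decide t a.1 c.1 (x ⊓ S.e h (S.val s a.2))
      (by rwa [inf_assoc, inf_comm (S.e h _)])
    obtain ⟨d, h4, h5, h6⟩ := exists_decide s a.2 c.2 (S.p h (x ⊓ S.val t b))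
      (inf_map_ne_bot.1 (by rwa [inf_right_comm]))
    exact ⟨(b, d), ⟨h1, h4⟩, by
      change x ⊓ (S.val t b ⊓ S.e h (S.val s d)) ≠ ⊥
      rw [← inf_assoc]
      exact inf_map_ne_bot.2 h5, h3, h6⟩
  | _, .prj t h s, a, c, x, H => by
    change x ⊓ (S.val t a.1 ⊓ S.p h (S.val s a.2)) ≠ ⊥ at H
    obtain ⟨b, h1, h2, h3⟩ := exists_decide t a.1 c.1 (x ⊓ S.p h (S.val s a.2))
      (by rwa [inf_assoc, inf_comm (S.p h _)])
    obtain ⟨d, h4, h5, h6⟩ := exists_decide s a.2 c.2 (S.e h (x ⊓ S.val t b)) (by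
      rw [inf_comm]
      refine inf_map_ne_bot.2 ?_
      rwa [inf_comm, inf_right_comm])
    exact ⟨(b, d), ⟨h1, h4⟩, by
      change x ⊓ (S.val t b ⊓ S.p h (S.val s d)) ≠ ⊥
      rw [← inf_assoc, inf_comm]
      exact inf_map_ne_bot.1 (by rwa [inf_comm]), h3, h6⟩

theorem Mor.red_aux {S S' : Sys I} (m : Mor S S') : ∀ {i : I} (t : Tm I i) {a' : S'.Asg t}
    {b c : S.Asg t}, S'.Le t a' (Fam.map (fun i => m.ι i) t c) →
    Fam.All (fun _ x => x ≠ ⊥) t (S'.inf t a' (Fam.map (fun i => m.ι i) t b)) →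
    Fam.All₂ (fun u (y z : S.X u) => y ≤ z ∨ y ≤ zᶜ) t b c → S.Le t b c
  | i, .var _, _, _, _, h1, h2, h3 => h3.resolve_right fun h4 => h2 (le_bot_iff.1
      ((inf_le_inf (α := S'.X i) h1 ((hm_mono (m.ι i) h4).trans (hm_compl _ _).le)).trans
        inf_compl_eq_bot.le))
  | _, .emb t _ s, _, _, _, h1, h2, h3 => ⟨red_aux m t h1.1 h2.1 h3.1, red_aux m s h1.2 h2.2 h3.2⟩
  | _, .prj t _ s, _, _, _, h1, h2, h3 => ⟨red_aux m t h1.1 h2.1 h3.1, red_aux m s h1.2 h2.2 h3.2⟩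

/-- a reduction below a given bound -/
theorem Mor.red_le {S S' : Sys I} (m : Mor S S') {i : I} (t : Tm I i) (a' : S'.Asg t)
    (h : S'.val t a' ≠ ⊥) (c : S.Asg t) (hc : S'.Le t a' (Fam.map (fun i => m.ι i) t c)) :
    ∃ a : S.Asg t, S.Le t a c ∧ S.val t a ≠ ⊥ ∧ ∀ b : S.Asg t, S.Le t b a → S.val t b ≠ ⊥ →
      S'.val t (S'.inf t a' (Fam.map (fun i => m.ι i) t b)) ≠ ⊥ := by
  obtain ⟨a, h1, h2⟩ := m.red t a' h
  obtain ⟨b, h3, h4, h5⟩ := Sys.exists_decide t a c ⊤ (by rwa [top_inf_eq])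
  rw [top_inf_eq] at h4
  exact ⟨b, m.red_aux t hc (Sys.all_ne_bot t (h2 b h3 h4)) h5, h4,
    fun b' h6 => h2 b' (h6.trans h3)⟩

namespace RXP

variable {S0 S1 : Sys I} [∀ u, Fact (CCC (S0.X u))] {Λ : Type} (P : RXP S0 S1 Λ)

theorem v_inj (u : I) {x y : S1.X u} (h : P.v u x = P.v u y) : x = y :=
  le_antisymm (P.v_le u _ _ h.le) (P.v_le u _ _ h.ge)

theorem ne_bot_of_v {u : I} {x : S1.X u} (h : P.v u x ≠ ⊥) : x ≠ ⊥ := fun e =>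
  h (e ▸ P.v_bot u)

theorem inf_ι_ne {u : I} {H : S1.X u} {b : S0.X u} (h0 : b ≠ ⊥) (h : b ≤ Pos (P.v u H)) :
    H ⊓ P.ι u b ≠ ⊥ := by
  refine P.ne_bot_of_v ?_
  rw [P.v_inf, P.v_ι, ← inf_assoc, inf_eq_left.2 (P.v_le_top _ _)]
  exact inf_map_ne_bot.2 (ne_bot_of_le (le_inf h le_rfl) h0)

/-- plain arrows -/
theorem plain {u w : I} (h : u ≤ w) (hc : ∀ l, P.cc u w l = P.tc l) (a : S1.X u) :
    P.v w (S1.e h a) = P.v w ⊤ ⊓ rmap (S0.e h) (P.v u a) := by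
  have key : ∀ a, P.v w (S1.e h a) ≤ rmap (S0.e h) (P.v u a) := fun a =>
    P.le_of_pieces w fun l => by
      rw [P.link, hc, rmap_sh]
      exact inf_le_right
  refine le_antisymm (le_inf (P.v_le_top _ _) (key a)) ?_
  have h1 := P.v_sSup w {S1.e h a, S1.e h aᶜ}
  rw [sSup_pair, iSup_pair, ← map_sup, sup_compl_eq_top, map_top] at h1
  rw [h1, inf_sup_right]
  refine sup_le inf_le_left (((inf_le_inf_right _ (key aᶜ)).trans_eq ?_).trans bot_le)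
  rw [← map_inf, ← P.v_inf, compl_inf_eq_bot, P.v_bot, map_bot]

theorem inf_e_ne {u w : I} (h : u ≤ w) (hc : ∀ l, P.cc u w l = P.tc l)
    (ht : rmap (S0.e h) (P.v u ⊤) ≤ P.v w ⊤) {a : S1.X u} {H : S1.X w} {s : List Bool}
    {b : S0.X w} (h1 : ri b ⊓ cyl s ⊓ P.v w ⊤ ≤ P.v w H)
    (h2 : P.v u a ⊓ (cyl s ⊓ ri (S0.p h b)) ≠ ⊥) : H ⊓ S1.e h a ≠ ⊥ := by
  rw [Sys.p, ← pj_rmap_ri, ← inf_assoc, inf_comm] at h2
  have h4 := inf_map_ne_bot.2 h2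
  rw [map_inf, rmap_cyl] at h4
  refine P.ne_bot_of_v (ne_bot_of_le ?_ h4)
  rw [P.v_inf, P.plain h hc]
  have h7 : ri b ⊓ (rmap (S0.e h) (P.v u a) ⊓ cyl s) ≤ P.v w ⊤ :=
    inf_le_right.trans (inf_le_left.trans ((hm_mono _ (P.v_le_top u a)).trans ht))
  exact le_inf ((le_inf (inf_le_inf_left _ inf_le_right) h7).trans h1)
    (le_inf h7 (inf_le_right.trans inf_le_left))

end RXP

namespace Gen

variable {Sk : Sys (KK τ)} [∀ u, Fact (CCC (Sk.X u))] (g : Gen τ Sk)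

theorem Φ_le_top (u : KK τ) (y : τ.Tk.X u) : g.Φ u y ≤ g.Φ u ⊤ := by
  rw [← inf_top_eq y, g.Φ_inf]
  exact inf_le_right

theorem mr_p {i i' : R} (h : i ≤ i') (y : τ.St.X (τ.ρ i')) :
    Sk.p (KK.RR h) (g.mr i' y) = g.mr i (τ.St.p (τ.ρm h) y) :=
  eq_of_forall_ge_iff fun x => by
    obtain ⟨x, rfl⟩ := (g.mr_bij i).2 x
    rw [Sys.p, pj_le, g.mr_comm h, hm_le_iff (g.mr_bij i').1, hm_le_iff (g.mr_bij i).1, pj_le]

theorem Φ_e {u v : KK τ} (h : u ≤ v) (hc : u = .nd .C0 → v ≠ .nd .M) (y : τ.Tk.X u) :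
    g.Φ v ⊤ ⊓ rmap (Sk.e h) (g.Φ u y) ≤ g.Φ v (τ.Tk.e h y) := by
  have self : ∀ (u : KK τ) (h : u ≤ u) (y : τ.Tk.X u),
      g.Φ u ⊤ ⊓ rmap (Sk.e h) (g.Φ u y) ≤ g.Φ u (τ.Tk.e h y) := fun u h y => by
    rw [rmap_id (Sk.e_refl h), τ.Tk.e_refl]
    exact inf_le_right
  rcases u with i | k
  · rw [g.Φ_root, rmap_ri, g.Φ_up]
  rcases v with i | k'
  · exact h.elim
  cases k <;> cases k' <;> first | exact h.elim | exact self _ h y | skip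
  · exact (g.Φ_NM y).ge.trans (congrArg (g.Φ (.nd .M)) (τ.St.e_refl _ y)).ge
  · exact (g.Φ_NY y).ge.trans (congrArg (g.Φ (.nd .Y)) (τ.St.e_refl _ y)).ge
  · exact absurd rfl (hc rfl)
  · exact inf_le_right.trans (g.Φ_EY h y).ge
  · exact inf_le_right.trans (g.Φ_EE h y).ge

/-- the bound that a piece puts on a slot -/
def bK : ∀ u : KK τ, List Bool × Pc → Sk.X u
  | .nd .M, (_, some (t, k)) => g.β t k
  | .nd .M, (_, none) => ⊥
  | _, _ => ⊤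

theorem betK_of : ∀ {u : KK τ} (t : Tm (KK τ) u) (D : Dat Pc t) {b : Sk.Asg t},
    Sk.Le t b (Fam.map g.bK t D) → Fam.All (fun _ x => x ≠ ⊥) t b → Fam.All₂ (BetK g.β) t D b
  | u, .var _, D, b, h1, h2 => by
    rcases u with _ | _ | _ | _ | _ | _ <;> try exact trivial
    rcases D with ⟨s, _ | ⟨t, k⟩⟩
    · exact absurd (le_bot_iff.1 h1) h2
    · exact ⟨t, k, rfl, h1⟩
  | _, .emb t _ s, D, _, h1, h2 => ⟨betK_of t D.1 h1.1 h2.1, betK_of s D.2 h1.2 h2.2⟩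
  | _, .prj t _ s, D, _, h1, h2 => ⟨betK_of t D.1 h1.1 h2.1, betK_of s D.2 h1.2 h2.2⟩

end Gen

namespace Tin

variable (z : Tin τ I)

instance (u : z.x.TJ) : Fact (CCC (z.S0.X u)) := z.cs _

theorem rmap_e {u v : KK τ} (h : u ≤ v) (E : RX (z.Sk.X u)) :
    rmap (z.S.e (z.x.κ_mono h)) (rmap (z.m.ι u) E) = rmap (z.m.ι v) (rmap (z.Sk.e h) E) :=
  (rmap_rmap (e'' := (z.m.ι v).comp (z.Sk.e h)) (z.m.comm h) E).trans
    (rmap_rmap (fun _ => rfl) E).symm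

theorem Φ_root (i : R) (y : τ.St.X (τ.ρ i)) :
    z.Φ (.root i) y = ri (z.m.ι (.root i) (z.g.mr i y)) := by
  rw [Φ, z.g.Φ_root, rmap_ri]

namespace Rnd

variable {z} (q : z.Rnd)

theorem not_low (k : KN τ.top) : ¬ q.P.low (z.x.kj (.nd k)) := by
  cases k
  · exact fun h => z.x.low_N ((q.low_old _).1 h)
  · exact fun h => z.x.low_N (z.x.low_le z.x.NM ((q.low_old _).1 h))
  · exact q.low_Y
  · exact fun h => z.x.low_C ((q.low_old _).1 h)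
  · exact q.low_E _

theorem low_root (i : R) : q.P.low (.old (z.x.nR i)) := (q.low_old _).2 (z.x.low_R i)

theorem v_root (i : R) (x : z.S.X (z.x.nR i)) :
    q.P.v (.old (z.x.nR i)) (q.P.ι (.old (z.x.nR i)) x) = ri x := by
  rw [q.P.v_ι, q.P.low_top _ (q.low_root i), top_inf_eq]

theorem exists_φ (u : KK τ) (w : τ.Tk.X u) : ∃ H, q.P.v (z.x.kj u) H = z.Φ u w := by
  rcases u with i | k
  · exact ⟨_, (q.v_root i _).trans (z.Φ_root i w).symm⟩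
  · exact q.P.onto _ (q.not_low k) _ ((hm_mono _ (z.g.Φ_le_top _ w)).trans (q.v_top _).ge)

/-- the labelling map -/
noncomputable def φ (u : KK τ) : Hm (τ.Tk.X u) (q.S1.X (z.x.kj u)) :=
  mkHm (fun w => (q.exists_φ u w).choose)
    (fun s => q.P.v_inj _ (by
      simp only [q.P.v_iSup, fun w => (q.exists_φ u w).choose_spec]
      simp only [Φ, z.g.Φ_sSup, map_iSup]))
    (fun a b => q.P.v_inj _ (by
      simp only [q.P.v_inf, fun w => (q.exists_φ u w).choose_spec]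
      simp only [Φ, z.g.Φ_inf, map_inf]))
    (q.P.v_inj _ ((q.exists_φ u _).choose_spec.trans (q.v_top u).symm))

theorem v_φ (u : KK τ) (w : τ.Tk.X u) : q.P.v (z.x.kj u) (q.φ u w) = z.Φ u w :=
  (q.exists_φ u w).choose_spec

theorem φ_root (i : R) (y : τ.St.X (τ.ρ i)) :
    q.φ (.root i) y = q.P.ι (.old (z.x.nR i)) (z.m.ι (.root i) (z.g.mr i y)) :=
  q.P.v_inj _ ((q.v_φ (.root i) y).trans ((z.Φ_root i y).trans (q.v_root i _).symm))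

theorem full (j : J) (p : τ.W j) : z.m.ι (.nd (.E j)) (z.Sk.e (KK.RE le_rfl j)
    (z.g.mr τ.a (τ.pA j p))) ≤ Pos (q.P.v (.E j) (q.φ (.nd (.E j)) p)) :=
  (hm_mono _ (z.g.full j p)).trans ((Pos_rmap _ _).symm.trans
    (congrArg Pos (q.v_φ (.nd (.E j)) p)).symm).le

theorem φ_inj (u : TT τ) : Function.Injective (q.φ u.kg) := by
  rcases u with i | j
  · intro a b h
    exact (z.g.mr_bij i).1 (z.m.inj _ (q.ι_inj _
      ((q.φ_root i a).symm.trans (h.trans (q.φ_root i b)))))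
  · refine hm_inj_iff.2 fun p hp => ?_
    by_contra h0
    have h1 := q.full j p
    rw [show q.φ (.nd (.E j)) p = ⊥ from hp, q.P.v_bot, Pos, pj_bot] at h1
    exact hm_ne_bot (z.m.inj _) (hm_ne_bot (z.Sk.inj _) (hm_ne_bot (z.g.mr_bij _).1
      (pj_ne_bot.2 h0))) (le_bot_iff.1 h1)

theorem φ_comm {u v : KK τ} (h : u ≤ v) (y : τ.Tk.X u) :
    q.S1.e (z.x.kj_mono h) (q.φ u y) = q.φ v (τ.Tk.e h y) := by
  refine hm_eq_of_le (f := (q.S1.e (z.x.kj_mono h)).comp (q.φ u))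
    (g := (q.φ v).comp (τ.Tk.e h)) (fun y => q.P.v_le _ _ _ ?_) y
  change q.P.v _ (q.S1.e (z.x.kj_mono h) (q.φ u y)) ≤ q.P.v _ (q.φ v (τ.Tk.e h y))
  by_cases hc : u = .nd .C0 → v ≠ .nd .M
  · rw [q.P.plain _ (q.cc_eq h hc), q.v_φ, q.v_φ, q.v_top]
    exact (inf_le_inf_left _ (z.rmap_e h _).le).trans
      ((map_inf (rmap (z.m.ι v)) _ _).ge.trans (hm_mono _ (z.g.Φ_e h hc y)))
  · push Not at hc
    obtain ⟨rfl, rfl⟩ := hc
    refine q.P.le_of_pieces _ fun l => ?_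
    rcases l with _ | ⟨t, k⟩
    · exact (inf_le_left.trans ((congrArg ri q.β_none).trans (map_bot _)).le).trans bot_le
    · have h1 := congrArg (rmap (z.m.ι (.nd .M))) (z.g.Φ_CM t k y)
      rw [map_inf, map_inf, rmap_ri, rmap_sh, ← z.rmap_e, rmap_sh] at h1
      rw [q.P.link, q.v_φ, q.v_φ, τ.St.e_refl, q.tc_some]
      refine le_trans ?_ (h1.ge.trans inf_le_right)
      refine inf_le_inf (inf_le_left.trans (congrArg ri (q.β_some t k)).le) (le_of_eq ?_)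
      exact congrArg (fun s => rmap _ (sh s _)) (q.cc_CM t k)

theorem corr_RR {i i' : R} (h : i ≤ i') (y : τ.St.X (τ.ρ i')) :
    q.S1.p (z.x.kj_mono (KK.RR h)) (q.φ (.root i') y) = q.φ (.root i) (τ.St.p (τ.ρm h) y) := by
  rw [q.φ_root, q.φ_root, ← z.g.mr_p h, ← z.m.corr]
  exact q.corr (z.x.RR h) _

theorem corr_aE (j : J) (y : τ.W j) :
    q.S1.p (z.x.kj_mono (KK.RE le_rfl j)) (q.φ (.nd (.E j)) y) = q.φ (.root τ.a) (τ.pA j y) := by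
  refine pj_eq_of ((hm_mono (q.φ (.nd (.E j))) (le_map_pj (τ.eA j) y)).trans
    (q.φ_comm (KK.RE le_rfl j) (τ.pA j y)).ge) fun a h0 ha => ?_
  obtain ⟨a, rfl⟩ := q.P.low_surj _ (q.low_root τ.a) a
  have h1 : a ≤ z.m.ι (.root τ.a) (z.g.mr τ.a (τ.pA j y)) :=
    (hm_le_iff (q.ι_inj _)).1 (ha.trans (q.φ_root τ.a _).le)
  have h2 : a ≠ ⊥ := fun e => h0 (by rw [e, map_bot])
  have h3 := q.P.inf_ι_ne (hm_ne_bot (z.S0.inj (z.x.kj_mono (KK.RE le_rfl j))) h2)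
    (((hm_mono (z.S0.e (z.x.kj_mono (KK.RE le_rfl j))) h1).trans
      (z.m.comm (KK.RE le_rfl j) _).le).trans (q.full j y))
  exact fun e => h3 ((congrArg _ (q.P.comm (z.x.kj_mono (KK.RE le_rfl j)) a).symm).trans e)

theorem corr_EE {j j' : J} (h : j ≤ j') (y : τ.W j') :
    q.S1.p (z.x.kj_mono (KK.EE h)) (q.φ (.nd (.E j')) y) = q.φ (.nd (.E j)) (τ.pW h y) := by
  refine pj_eq_of ((hm_mono (q.φ (.nd (.E j'))) (le_map_pj (τ.eW h) y)).trans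
    (q.φ_comm (KK.EE h) (τ.pW h y)).ge) fun a h0 ha => ?_
  obtain ⟨b, h1, h2⟩ := z.g.plab h y
  have h3 := ((q.P.v_mono _ ha).trans (q.v_φ (.nd (.E j)) _).le).trans
    (hm_mono (rmap (z.m.ι (.nd (.E j)))) h2)
  rw [map_iSup] at h3
  obtain ⟨s, hs⟩ := exists_inf_ne_bot_of_le (q.P.v_ne_bot _ h0) h3
  rw [map_inf, rmap_cyl, rmap_ri, ← z.m.corr] at hs
  have h6 := hm_mono (rmap (z.m.ι (.nd (.E j')))) (h1 s)
  rw [map_inf, map_inf, rmap_cyl, rmap_ri] at h6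
  refine q.P.inf_e_ne (z.x.kj_mono (KK.EE h)) (q.cc_eq (KK.EE h) nofun) ?_ ?_ hs
  · rw [q.v_top, q.v_top]
    refine ((z.rmap_e (KK.EE h) _).trans ?_).le
    rw [← z.g.Φ_EE h ⊤, map_top]
    rfl
  · rw [q.v_top, q.v_φ]
    exact h6

theorem φ_corr {u v : TT τ} (h : u ≤ v) (y : τ.Tk.X v.kg) :
    q.S1.p (z.x.kj_mono h) (q.φ v.kg y) = q.φ u.kg (τ.Tk.p h y) := by
  rcases u with i | j <;> rcases v with i' | j'
  · exact q.corr_RR h y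
  · exact (Sys.p_p (z.x.kj_mono (KK.RR h)) (z.x.kj_mono (KK.RE le_rfl j')) _).symm.trans
      ((congrArg _ (q.corr_aE j' y)).trans ((q.corr_RR h _).trans
        (congrArg _ (Sys.p_p (τ.ρm h) (τ.le j') y))))
  · exact h.elim
  · exact q.corr_EE h y

theorem φ_unb {j j' : J} (h : j ≤ j') (t : ℕ → ℕ → τ.W j') (ht : Mat t) (H : Unb (τ.eW h) t) :
    Unb (q.S1.e (z.x.kj_mono (KK.EE h))) fun n k => q.φ (.nd (.E j')) (t n k) := by
  intro p hp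
  obtain ⟨k, hk⟩ := exists_inf_ne_bot_of_le (q.P.v_ne_bot _ hp) (le_top.trans iSup_cyl_root.ge)
  obtain ⟨p', hp'⟩ := q.P.onto _ (q.not_low (.E j')) _
    ((inf_le_left (b := cyl (root k))).trans (q.P.v_le_top _ p))
  obtain ⟨t1, h1, h2, h3⟩ := z.g.unbJ h t ht H k
  obtain ⟨n, hn⟩ := q.P.unb (z.x.kj_mono (KK.EE h)) (h1.map (z.m.ι _)) (z.kEE h t1 h1 h2) p'
    (q.P.ne_bot_of_v (hp' ▸ hk))
  refine ⟨n, ne_bot_of_le (iInf_mono fun l => pj_mono _ (q.P.v_le _ _ _ ?_)) hn⟩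
  have h6 := hm_mono (rmap (z.m.ι _)) (h3 n l)
  rw [map_inf, map_inf, rmap_cyl, rmap_ri] at h6
  rw [q.P.v_inf, q.P.v_inf, hp', q.P.v_ι, q.v_φ, q.v_top]
  exact le_inf (inf_le_left.trans inf_le_left) ((le_inf (le_inf (inf_le_right.trans inf_le_right)
    (inf_le_left.trans inf_le_right)) (inf_le_right.trans inf_le_left)).trans h6)

instance (u : KK τ) : Fact (CCC ((z.S0.comap z.x.kj z.x.kj_mono).X u)) := z.cs _

/-- the random step over the kinds -/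
abbrev Q := q.P.comap z.x.kj z.x.kj_mono

theorem mtK {u v : KK τ} (h : u ≤ v) {d d' : List Bool × Pc} (H : q.Q.Mt u v d d') :
    MtK u v d d' := by
  rcases u with i | k
  · trivial
  obtain ⟨r, h1, h2⟩ := H.resolve_left (q.not_low k)
  by_cases hc : (.nd k : KK τ) = .nd .C0 → v ≠ .nd .M
  · have e : d.1 = d'.1 := h2.trans ((congrArg (· ++ r) (q.cc_eq h hc _)).trans h1.symm)
    rcases v with i | k'
    · exact h.elim
    cases k <;> cases k' <;> first | exact e | exact absurd rfl (hc rfl)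
  · push Not at hc
    obtain ⟨e, rfl⟩ := hc
    obtain rfl : k = .C0 := KG.nd.inj e
    intro t k e
    rw [e] at h1 h2
    exact ⟨r, h1.trans (congrArg (· ++ r) (q.tc_some t k)),
      h2.trans (congrArg (· ++ r) (q.cc_CM t k))⟩

theorem goodK : ∀ {u : KK τ} (t : Tm (KK τ) u) {D : Dat Pc t}, q.Q.Good t D → GoodK t D
  | _, .var _, _, H => H.1
  | _, .emb t h s, _, H => ⟨goodK t H.1, goodK s H.2.1, q.mtK h H.2.2⟩
  | _, .prj t h s, _, H => ⟨goodK t H.1, goodK s H.2.1, q.mtK h H.2.2⟩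

theorem shadow_le (ε : ℝ) : ∀ {u : KK τ} (t : Tm (KK τ) u) (D : Dat Pc t)
    (a : (q.S1.comap z.x.kj z.x.kj_mono).Asg t), (z.S.comap z.x.κ z.x.κ_mono).Le t
      (q.Q.shadow ε t D a) (Fam.map (fun u => z.m.ι u) t (Fam.map z.g.bK t D))
  | u, .var _, D, _ => by
    rcases u with _ | _ | _ | _ | _ | _ <;> try exact le_top.trans (map_top (z.m.ι _)).ge
    rcases D with ⟨s, _ | ⟨t, k⟩⟩
    · exact (inf_le_left.trans q.β_none.le).trans bot_le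
    · exact inf_le_left.trans (q.β_some t k).le
  | _, .emb t _ s, D, a => ⟨shadow_le ε t D.1 a.1, shadow_le ε s D.2 a.2⟩
  | _, .prj t _ s, D, a => ⟨shadow_le ε t D.1 a.1, shadow_le ε s D.2 a.2⟩

theorem lab_var (u : KK τ) (s : List Bool) {b1 : z.Sk.X u} {σ : τ.Tk.X u} {b : z.S.X (z.x.κ u)}
    (h1 : b ≤ z.m.ι u b1) (h2 : ri b1 ⊓ z.g.Φ u ⊤ ≤ cyl s ⇨ z.g.Φ u σ) :
    ri b ⊓ q.P.v (z.x.kj u) ⊤ ≤ cyl s ⇨ q.P.v (z.x.kj u) (q.φ u σ) := by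
  have h3 := hm_mono (rmap (z.m.ι u)) h2
  rw [map_inf, hm_himp, rmap_ri, rmap_cyl] at h3
  rw [q.v_φ, q.v_top]
  exact (inf_le_inf_right _ (hm_mono ri h1)).trans h3

theorem lab_up (r : List Bool) : ∀ {u : KK τ} (t : Tm (KK τ) u) (D : Dat Pc t) {b1 : z.Sk.Asg t}
    {σ : τ.Tk.Asg t} {b : (z.S.comap z.x.κ z.x.κ_mono).Asg t},
    (z.S.comap z.x.κ z.x.κ_mono).Le t b (Fam.map (fun u => z.m.ι u) t b1) →
    Fam.All₂ (fun u (x : z.Sk.X u) (y : RX (z.Sk.X u)) => ri x ⊓ z.g.Φ u ⊤ ≤ y) t b1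
      (Fam.map₂ (fun u (d : List Bool × Pc) w => cyl (d.1 ++ r) ⇨ z.g.Φ u w) t D σ) →
    Fam.All₂ (fun u (x : z.S.X (z.x.κ u)) (y : RX (z.S.X (z.x.κ u))) => ri x ⊓ q.Q.v u ⊤ ≤ y) t b
      (Fam.map₂ (fun u (d : List Bool × Pc) w => cyl (d.1 ++ r) ⇨ q.Q.v u w) t D
        (Fam.map (fun u => q.φ u) t σ))
  | u, .var _, D, _, _, _, h1, h2 => q.lab_var u (D.1 ++ r) h1 h2
  | _, .emb t _ s, D, _, _, _, h1, h2 => ⟨lab_up r t D.1 h1.1 h2.1, lab_up r s D.2 h1.2 h2.2⟩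
  | _, .prj t _ s, D, _, _, _, h1, h2 => ⟨lab_up r t D.1 h1.1 h2.1, lab_up r s D.2 h1.2 h2.2⟩

theorem all_ne : ∀ {u : KK τ} (t : Tm (KK τ) u) {a : (q.S1.comap z.x.kj z.x.kj_mono).Asg t}
    {σ : τ.Tk.Asg t}, Fam.All (fun _ x => x ≠ ⊥) t ((q.S1.comap z.x.kj z.x.kj_mono).inf t a
      (Fam.map (fun u => q.φ u) t σ)) → Fam.All (fun _ y => y ≠ ⊥) t σ
  | u, .var _, _, _, h => fun e => h (le_bot_iff.1
      (inf_le_right.trans ((congrArg (q.φ u) e).trans (map_bot _)).le))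
  | _, .emb t _ s, _, _, h => ⟨all_ne t h.1, all_ne s h.2⟩
  | _, .prj t _ s, _, _, h => ⟨all_ne t h.1, all_ne s h.2⟩

theorem φ_g1 {u : KK τ} (t : Tm (KK τ) u) (a : (q.S1.comap z.x.kj z.x.kj_mono).Asg t)
    (ha : (q.S1.comap z.x.kj z.x.kj_mono).val t a ≠ ⊥) (DD : τ.Tk.Asg t → Prop)
    (hDD : ∀ lam, τ.Tk.Coh t lam → ∃ σ, DD σ ∧ τ.Tk.val t (τ.Tk.inf t σ lam) ≠ ⊥) :
    ∃ σ, DD σ ∧ (q.S1.comap z.x.kj z.x.kj_mono).val t
      ((q.S1.comap z.x.kj z.x.kj_mono).inf t a (Fam.map (fun u => q.φ u) t σ)) ≠ ⊥ := by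
  obtain ⟨ε, h0, h1, -⟩ := RXP.exists_eps t one_pos
  obtain ⟨D, hD, h2⟩ := q.Q.det_ne h0 t ha
  obtain ⟨b0, h3, h4, h5⟩ := z.m.red_le t _ h2 _ (q.shadow_le ε t D a)
  obtain ⟨b1, n, h6, h7, h8⟩ := z.g.g0 t D (q.goodK t hD) b0 h4
    (z.g.betK_of t D h3 (Sys.all_ne_bot t h4)) DD hDD
  have h9 : ∀ r : List Bool, ∃ σ : τ.Tk.Asg t, r.length = n →
      (DD σ ∨ ¬ Fam.All (fun _ y => y ≠ ⊥) t σ) ∧
      Fam.All₂ (fun u (x : z.Sk.X u) (y : RX (z.Sk.X u)) => ri x ⊓ z.g.Φ u ⊤ ≤ y) t b1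
        (Fam.map₂ (fun u (d : List Bool × Pc) w => cyl (d.1 ++ r) ⇨ z.g.Φ u w) t D σ) := fun r => by
    by_cases e : r.length = n
    · exact (h8 r e).imp fun _ H _ => H
    · exact ⟨Fam.const (fun _ => ⊤) t, fun e' => absurd e' e⟩
  choose σ hσ using h9
  obtain ⟨r, hr, H⟩ := q.Q.bk_tok n t h1 hD a (fun r => Fam.map (fun u => q.φ u) t (σ r))
    (Sys.inf_le_l t _ _) (h5 b1 h6 h7) fun r hr =>
      q.lab_up r t D (Sys.inf_le_r t _ _) (hσ r hr).2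
  exact ⟨σ r, (hσ r hr).1.resolve_right (not_not.2 (q.all_ne t (Sys.all_ne_bot t H))), H⟩

end Rnd

end Tin

theorem Tin.Rnd.exists_mid {z : Tin τ I} (q : z.Rnd) : ∃ c : Mid z.x q.S1,
    ∀ u w, q.P.v (z.x.kj u) (c.φ u w) = z.Φ u w :=
  ⟨⟨q.P.K (z.K.comap _ _), q.φ, q.φ_inj, q.φ_comm, q.φ_corr, q.φ_unb, q.φ_g1⟩, q.v_φ⟩

end Pool.Agent.Lib.MP_f79ffc_lc.U
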