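import Pool.Agent.Lib.MP_f79ffc_lc.U.T.Pet

/-! The morphism from the template to the system after the token step. -/

namespace Pool.Agent.Lib.MP_f79ffc_lc.U

open Pool.Agent.Lib.MP_5d9fac_lc Cardinal

variable {R J L I : Type} [Preorder R] [Preorder J] [Preorder L] [Preorder I] {τ : Tp R J L}

/-- the chains for the projections between template indices -/
noncomputable def tdn : ∀ {i j : TT τ}, i ≤ j → ℕ → Ch i.kg j.kg
  | .root _, _, h, _ => .prj (TT.kg_mono h) (.nil _)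
  | .pet j, _, h, n => (loop τ j n).cat (.prj (TT.kg_mono h) (.nil _))

/-- the expansion data for template terms -/
noncomputable def txp (τ : Tp R J L) : Xp (TT τ) (KK τ) ℕ :=
  ⟨TT.kg, fun h => .emb (TT.kg_mono h) (.nil _), tdn⟩

theorem txp_tr : (txp τ).Tr (fun i => τ.ktm i.kg) τ.ktm where
  le _ := le_rfl
  up h := ⟨τ.ktm_mono h, le_refl (τ.ktm _)⟩
  dn {i j} h n := by
    cases i
    · exact ⟨le_rfl, Or.inr ⟨le_rfl, le_refl (τ.ktm _)⟩⟩
    · exact Ch.Dp.cat (loop_ab _ n) ⟨le_rfl, Or.inr ⟨le_rfl, le_refl (τ.ktm _)⟩⟩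

variable {x : Tix τ I} {S1 : Sys x.TJ}

/-- the inclusions at the template indices -/
noncomputable def tκ (x : Tix τ I) (S1 : Sys x.TJ) :
    ∀ i : TT τ, Hm ((x.S2 S1).X (x.nw i)) ((x.Sk S1).X i.kg)
  | .root i => x.pκ S1 (.old (x.nR i))
  | .pet j => x.pκ S1 (.pet j)

theorem tκ_inj (i : TT τ) : Function.Injective (tκ x S1 i) := by
  cases i <;> exact x.pκ_inj S1 _

theorem tκ_e {i j : TT τ} (h : i ≤ j) (y : (x.S2 S1).X (x.nw i)) :
    tκ x S1 j ((x.S2 S1).e (x.nw_mono h) y) = (x.Sk S1).e (TT.kg_mono h) (tκ x S1 i y) := by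
  cases i <;> cases j
  exacts [rfl, rfl, h.elim, rfl]

theorem txp_ok : (txp τ).Ok ((x.S2 S1).comap x.nw x.nw_mono) (x.Sk S1) (tκ x S1) where
  up h y := tκ_e h y
  dn {i j} h y := by
    cases i <;> cases j
    · exact (x.xp_ok S1).dn (x.nw_mono h) y
    · exact (x.xp_ok S1).dn (x.nw_mono h) y
    · exact h.elim
    · simp only [txp, tdn, Ch.op_cat]
      exact x.p_pet S1 h y

namespace Mid

variable (c : Mid x S1)

theorem φ_mem (j : J) (w : τ.W j) : c.φ (.nd (.E j)) w ∈ pet (x.Sk S1) j := mem_pet.2 fun h =>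
  ⟨c.φ (.nd .N) (τ.eW h w), c.φ (.nd .C0) (τ.eW h w),
    (c.comm KK.NY _).trans ((congrArg _ (τ.St.e_refl _ _)).trans (c.comm (KK.EY h) w).symm),
    (c.comm KK.CM _).trans (c.comm KK.NM _).symm⟩

/-- the maps of the morphism -/
noncomputable def φ₂ : ∀ i : TT τ, Hm (τ.Tk.X i.kg) ((x.S2 S1).X (x.nw i))
  | .root i => c.φ (.root i)
  | .pet j => (pet_sub (x.Sk S1) j).res (c.φ (.nd (.E j))) (c.φ_mem j)

theorem κ_φ₂ (i : TT τ) (y : τ.Tk.X i.kg) : tκ x S1 i (c.φ₂ i y) = c.φ i.kg y := by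
  cases i <;> rfl

/-- the morphism from the template -/
noncomputable def m2 : Mor τ.Sr ((x.S2 S1).comap x.nw x.nw_mono) where
  ι := c.φ₂
  inj i a b e := c.inj i (by rw [← c.κ_φ₂, ← c.κ_φ₂, e])
  comm {i j} h y := tκ_inj j (by
    refine (tκ_e h _).trans ?_
    rw [c.κ_φ₂, c.κ_φ₂]
    exact c.comm (TT.kg_mono h) y)
  corr {i j} h y := eq_of_forall_ge_iff fun a => by
    refine pj_le.trans ((hm_le_iff (tκ_inj (x := x) (S1 := S1) j)).symm.trans
      (Iff.trans ?_ (hm_le_iff (tκ_inj (x := x) (S1 := S1) i))))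
    rw [tκ_e h, c.κ_φ₂, ← pj_le]
    exact iff_of_eq (congrArg (· ≤ tκ x S1 i a) ((c.corr h y).trans (c.κ_φ₂ i _).symm))
  red t a h := Xp.red (St := τ.St) (hl := τ.ktm_mono.comp TT.kg_mono) (hm := τ.ktm_mono) txp_ok
    tκ_inj txp_tr c.φ₂ c.φ (fun i y => (c.κ_φ₂ i y).trans (congrArg _ (τ.St.e_refl _ y).symm))
    c.g1 t a h

end Mid

theorem Mid.exists_pet {x : Tix τ I} {S1 : Sys x.TJ} (c : Mid x S1) :
    ∃ (S2 : Sys x.TI) (n1 : Mor (S1.comap Tix.TJ.old x.old_mono) (S2.comap Tix.TI.old x.oldI_mono))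
      (m2 : Mor τ.Sr (S2.comap x.nw x.nw_mono)), S2.K ∧
      (∀ u, Function.Surjective (n1.ι u)) ∧ (∀ j, #(S2.X (.pet j)) ≤ #(S1.X (.E j))) ∧
      (∀ j j' (h : j ≤ j'), m2.Keeps (TT.PP h)) ∧
      (∀ i y, m2.ι (.root i) y = n1.ι (x.nR i) (c.φ (.root i) y)) ∧
      ∀ w, S2.e (x.top_le le_rfl) (m2.ι (.pet τ.top) w) = n1.ι x.nN (c.φ (.nd .N) w) := by
  refine ⟨x.S2 S1, Mor.ofBij (fun _ => CompleteLatticeHom.id _) (fun _ => Function.bijective_id)
    fun _ _ => rfl, c.m2, x.S2_K S1 c.K, fun _ => Function.surjective_id,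
    fun j => mk_le_of_injective (x.pκ_inj S1 (.pet j)), fun j j' h t ht hu => ?_,
    fun _ _ => rfl, fun w => ?_⟩
  · exact Unb.down (f := tκ x S1 (.pet j)) (g := (x.Sk S1).e (KK.EE h)) (tκ_inj (.pet j'))
      (fun y => (tκ_e (TT.PP h) y).symm) (c.unb h t ht hu)
  · refine (Tix.pE_N (x.top_le le_rfl) le_rfl _).trans ((S1.e_refl _ _).trans
      ((x.Sk S1).inj KK.NY ((e_nA _ _ _).trans ?_)))
    exact (c.comm (KK.EY le_rfl) w).trans (c.comm KK.NY w).symm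

end Pool.Agent.Lib.MP_f79ffc_lc.U
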