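import Pool.Agent.Lib.MP_f79ffc_lc.U.T.Rnd
import Pool.Agent.Lib.MP_f79ffc_lc.U.T.Phi
import Pool.Agent.Lib.MP_f79ffc_lc.U.T.Red

/-!
The token step.
-/

namespace Pool.Agent.Lib.MP_f79ffc_lc.U

open Pool.Agent.Lib.MP_5d9fac_lc Pool.Agent.Lib.MP_f79ffc_lc.R Cardinal

variable {R J L I : Type} [Preorder R] [Preorder J] [Preorder L] [Preorder I] {τ : Tp R J L}

theorem tk_unb_bij {X X' Y Y' : Type} [CompleteBooleanAlgebra X] [CompleteBooleanAlgebra X']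
    [CompleteBooleanAlgebra Y] [CompleteBooleanAlgebra Y'] {e : Hm X Y} {e' : Hm X' Y'}
    {f : Hm X X'} {g : Hm Y Y'} (hf : Function.Bijective f) (H : ∀ x, e' (f x) = g (e x))
    {t : ℕ → ℕ → Y} (h : Unb e t) : Unb e' fun n k => g (t n k) := by
  intro p hp
  obtain ⟨n, hn⟩ := Unb.up (g := e'.comp f) (fun x => (H x).symm) h p hp
  refine ⟨n, fun h0 => hm_ne_bot hf.1 hn (le_bot_iff.1 ?_)⟩
  rw [← h0, map_iInf]
  refine iInf_mono fun k => ?_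
  obtain ⟨a, ha⟩ := hf.2 (pj e' (p ⊓ g (t n k)))
  rw [← pj_pj (f := f) (g := e') (h := e'.comp f) (fun _ => rfl), ← ha, pj_map hf.1]

theorem tk_v_inj {S0 S1 : Sys I} [∀ u, Fact (CCC (S0.X u))] {Λ : Type} (P : RXP S0 S1 Λ) (u : I) :
    Function.Injective (P.v u) := fun _ _ h =>
  le_antisymm (P.v_le _ _ _ h.le) (P.v_le _ _ _ h.ge)

theorem tk_inv {S0 S1 : Sys I} [∀ u, Fact (CCC (S0.X u))] {Λ : Type} (P : RXP S0 S1 Λ) (u : I)
    (hl : ¬ P.low u) (ht : P.v u ⊤ = ⊤) :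
    ∃ th : Hm (RX (S0.X u)) (S1.X u), ∀ E, P.v u (th E) = E := by
  choose f hf using fun E => P.onto u hl E (ht ▸ le_top)
  exact ⟨mkHm f (fun s => tk_v_inj P u (by simp only [hf, P.v_iSup, sSup_eq_iSup]))
    (fun a b => tk_v_inj P u (by rw [P.v_inf, hf, hf, hf])) (tk_v_inj P u (by rw [hf, ht])), hf⟩

theorem tk_plain {S0 S1 : Sys I} [∀ u, Fact (CCC (S0.X u))] {Λ : Type} (P : RXP S0 S1 Λ)
    {u w : I} (h : u ≤ w) (hc : ∀ l, P.cc u w l = P.tc l) (H : S1.X u) :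
    P.v w (S1.e h H) ≤ rmap (S0.e h) (P.v u H) :=
  P.le_of_pieces w fun l => by
    rw [P.link h l, hc, rmap_sh]
    exact inf_le_right

theorem Tin.tok (z : Tin τ I) :
    ∃ (S2 : Sys z.x.TI) (m1 : Mor z.S (S2.comap Tix.TI.old z.x.oldI_mono))
      (m2 : Mor τ.Sr (S2.comap z.x.nw z.x.nw_mono)), S2.K ∧
      (∀ u, ∃ v, #(S2.X u) ≤ #(z.S.X v) ^ ℵ₀) ∧ (∀ u v (h : u ≤ v), m1.Keeps h) ∧
      (∀ j j' (h : j ≤ j'), m2.Keeps (TT.PP h)) ∧
      (∀ i i' (h : i ≤ i'), z.m.Keeps (KK.RR h) → m2.Keeps (TT.RR h)) ∧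
      (∀ i y, m2.ι (.root i) y = m1.ι (z.x.nR i) (z.m.ι (.root i) (z.g.mr i y))) ∧
      ∀ u (h : z.x.nN ≤ u), ¬ z.x.nM ≤ u → ∃ th : Hm (RX (z.S.X u)) (S2.X (.old u)),
        Function.Injective th ∧ (∀ y, th (ri y) = m1.ι u y) ∧
        ∀ w, th (rmap (z.S.e h) (z.Φ (.nd .N) w)) = S2.e (z.x.top_le h) (m2.ι (.pet τ.top) w) := by
  obtain ⟨q⟩ := z.exists_rnd
  obtain ⟨c, hc⟩ := q.exists_mid
  obtain ⟨S2, n1, m2, hK, hs, hcard, hk, hr, ht⟩ := c.exists_pet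
  let m0 : Mor z.S (q.S1.comap Tix.TJ.old z.x.old_mono) :=
    (q.P.comap Tix.TJ.old z.x.old_mono).mor (fun u => q.ι_inj _) fun h y => q.corr h y
  have k1 : ∀ u v (h : u ≤ v), (m0.comp n1).Keeps h := fun u v h =>
    Mor.Keeps.comp (fun _ h1 h2 => q.P.unb (z.x.old_mono h) h1 h2) (n1.keeps_of_surj h (hs v))
  have c1 : ∀ u, #(q.S1.X u) ≤ #(z.S.X (z.x.sh u)) ^ ℵ₀ := fun u =>
    (mk_le_of_injective (tk_v_inj q.P u)).trans mk_RX_le
  have r1 : ∀ i y, m2.ι (.root i) y =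
      (m0.comp n1).ι (z.x.nR i) (z.m.ι (.root i) (z.g.mr i y)) := fun i y => by
    rw [hr]
    refine congrArg (n1.ι (z.x.nR i)) (tk_v_inj q.P (.old (z.x.nR i)) ?_)
    refine (hc (.root i) y).trans (Eq.trans ?_ (q.P.v_ι (.old (z.x.nR i)) _).symm)
    rw [q.P.low_top _ ((q.low_old _).2 (z.x.low_R i)), top_inf_eq, Tin.Φ, z.g.Φ_root, rmap_ri]
  refine ⟨S2, m0.comp n1, m2, hK, ?_, k1, hk, fun i i' h H t h1 h2 => ?_, r1, fun u h hM => ?_⟩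
  · rintro (u | j)
    · exact ⟨u, (mk_le_of_surjective (hs u)).trans (c1 (.old u))⟩
    · exact ⟨_, (hcard j).trans (c1 (.E j))⟩
  · have h3 := k1 _ _ (z.x.RR h) _ ((h1.map (z.g.mr i')).map (z.m.ι (.root i')))
      (H _ (h1.map (z.g.mr i')) (tk_unb_bij (z.g.mr_bij i) (z.g.mr_comm h) h2))
    simpa only [r1] using h3
  · obtain ⟨th, hth⟩ := tk_inv q.P (.old u)
      (fun e => z.x.low_N (z.x.low_le h ((q.low_old u).1 e))) (q.v_old u hM)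
    refine ⟨(n1.ι u).comp th, (n1.inj u).comp (Function.LeftInverse.injective hth),
      fun y => congrArg (n1.ι u) (tk_v_inj q.P (.old u) ?_), fun w => ?_⟩
    · exact (hth _).trans ((q.P.v_ι (.old u) y).trans (by rw [q.v_old u hM, top_inf_eq])).symm
    · have e1 : ∀ H, th (rmap (z.S.e h) (q.P.v (.old z.x.nN) H)) = q.S1.e (z.x.old_mono h) H := by
        obtain ⟨th', hth'⟩ := tk_inv q.P (.old z.x.nN)
          (fun e => z.x.low_N ((q.low_old _).1 e)) (q.v_old _ z.x.MN)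
        intro H
        obtain ⟨E, rfl⟩ : ∃ E, th' E = H := ⟨_, tk_v_inj q.P _ (hth' _)⟩
        rw [hth']
        refine (hm_eq_of_le (f := (q.S1.e (z.x.old_mono h)).comp th')
          (g := th.comp (rmap (z.S.e h))) (fun E => q.P.v_le _ _ _ ?_) E).symm
        refine (tk_plain q.P (z.x.old_mono h) (q.cc_N u) (th' E)).trans ?_
        rw [hth']
        exact (hth _).ge
      rw [← hc (.nd .N) w, ← S2.e_trans (z.x.top_le le_rfl) (z.x.oldI_mono h), ht]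
      exact (congrArg (n1.ι u) (e1 _)).trans (n1.comm h _).symm

end Pool.Agent.Lib.MP_f79ffc_lc.U
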