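import Pool.Agent.Lib.MP_f79ffc_lc.U.G.Sg
import Pool.Agent.Lib.MP_f79ffc_lc.U.L.Mor

/-!
Index sets of the token step.
-/

namespace Pool.Agent.Lib.MP_f79ffc_lc.U

open Pool.Agent.Lib.MP_f79ffc_lc.R

variable {R J L I : Type} [Preorder R] [Preorder J] [Preorder L] [Preorder I]

/-- the kinds of nodes of an expanded term -/
abbrev KK (τ : Tp R J L) : Type := KG τ.a τ.top

namespace KK

variable {τ : Tp R J L}

theorem NM : (.nd .N : KK τ) ≤ .nd .M := trivial
theorem NY : (.nd .N : KK τ) ≤ .nd .Y := trivial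
theorem CM : (.nd .C0 : KK τ) ≤ .nd .M := trivial
theorem EE {j j' : J} (h : j ≤ j') : (.nd (.E j) : KK τ) ≤ .nd (.E j') := h
theorem EY {j : J} (h : j ≤ τ.top) : (.nd (.E j) : KK τ) ≤ .nd .Y := h
theorem RR {i i' : R} (h : i ≤ i') : (.root i : KK τ) ≤ .root i' := h
theorem RE {i : R} (h : i ≤ τ.a) (j : J) : (.root i : KK τ) ≤ .nd (.E j) := h
theorem RN {i : R} (h : i ≤ τ.a) : (.root i : KK τ) ≤ .nd .N := h

end KK

/-- root indices and petal indices -/
inductive TT (τ : Tp R J L) : Type
  | root (i : R)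
  | pet (j : J)

namespace TT

variable {τ : Tp R J L}

/-- the kind of the centre -/
@[reducible] def kg : TT τ → KK τ
  | root i => .root i
  | pet j => .nd (.E j)

instance : Preorder (TT τ) := Preorder.lift kg

theorem kg_mono : Monotone (kg : TT τ → KK τ) := fun _ _ h => h

theorem RR {i i' : R} (h : i ≤ i') : (root i : TT τ) ≤ root i' := h
theorem RP {i : R} (h : i ≤ τ.a) (j : J) : (root i : TT τ) ≤ pet j := h
theorem PP {j j' : J} (h : j ≤ j') : (pet j : TT τ) ≤ pet j' := h

end TT

/-- the template over root and petal indices -/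
abbrev Tp.Sr (τ : Tp R J L) : Sys (TT τ) := τ.Tk.comap TT.kg TT.kg_mono

/-- pieces -/
abbrev Pc : Type := Option (List Bool × ℕ)

/-- matched cells along an edge from `u` up to `v` -/
def MtK {τ : Tp R J L} : KK τ → KK τ → List Bool × Pc → List Bool × Pc → Prop
  | .root _, _, _, _ => True
  | .nd .C0, .nd .M, d, d' => ∀ t k, d'.2 = some (t, k) → ∃ r, d'.1 = t ++ r ∧ d.1 = root k ++ r
  | _, _, d, d' => d.1 = d'.1

/-- all cells contain a `1` and are matched along the edges -/
def GoodK {τ : Tp R J L} : ∀ {u : KK τ} (t : Tm (KK τ) u),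
    Fam (fun _ => List Bool × Pc) t → Prop
  | _, .var _, d => true ∈ d.1
  | v, .emb (j := u) t _ s, d =>
      GoodK t d.1 ∧ GoodK s d.2 ∧ MtK u v (Fam.head s d.2) (Fam.head t d.1)
  | u, .prj (j := v) t _ s, d =>
      GoodK t d.1 ∧ GoodK s d.2 ∧ MtK u v (Fam.head t d.1) (Fam.head s d.2)

/-- a slot at a node `M` forces its piece -/
def BetK {τ : Tp R J L} {Sk : Sys (KK τ)} (β : List Bool → ℕ → Sk.X (.nd .M)) :
    ∀ u : KK τ, List Bool × Pc → Sk.X u → Prop
  | .nd .M, d, x => ∃ t k, d.2 = some (t, k) ∧ x ≤ β t k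
  | _, _, _ => True

/-- the position of the generator inside a later index set -/
structure Tix (τ : Tp R J L) (I : Type) [Preorder I] where
  nR : R → I
  nN : I
  nM : I
  nY : I
  nC : I
  nE : J → I
  RR : Monotone nR
  RN : nR τ.a ≤ nN
  NM : nN ≤ nM
  NY : nN ≤ nY
  CM : nC ≤ nM
  EE : Monotone nE
  EY : nE τ.top ≤ nY
  low : I → Prop
  low_le : ∀ {u v}, u ≤ v → low v → low u
  low_R : ∀ i, low (nR i)
  low_N : ¬ low nN
  low_C : ¬ low nC
  cut_C : ∀ {u}, low u → u ≤ nN → u ≤ nC
  cut_E : ∀ {u}, low u → u ≤ nN → u ≤ nE τ.bot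
  cut_N : ∀ {u v}, low u → u ≤ v → ¬ low v → u ≤ nN
  up : ∀ {u}, ¬ low u → nN ≤ u ∨ nC ≤ u
  both : ∀ {v}, nN ≤ v → nC ≤ v → nM ≤ v
  mid : ∀ {u v}, nN ≤ u → u ≤ v → nM ≤ v → nM ≤ u ∨ u ≤ nN
  NC : ¬ nN ≤ nC
  MN : ¬ nM ≤ nN

namespace Tix

variable {τ : Tp R J L} (x : Tix τ I)

/-- the index set of the random step -/
inductive TJ (x : Tix τ I) : Type
  | old (u : I)
  | Y
  | E (j : J)

/-- the order of `TJ` -/
def TJ.le {x : Tix τ I} : x.TJ → x.TJ → Prop
  | .old u, .old v => u ≤ v
  | .old u, .Y => u ≤ x.nN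
  | .old u, .E _ => x.low u ∧ u ≤ x.nN
  | .Y, .Y => True
  | .E j, .Y => j ≤ τ.top
  | .E j, .E j' => j ≤ j'
  | _, _ => False

instance : Preorder x.TJ where
  le := TJ.le
  le_refl u := by cases u <;> simp [TJ.le]
  le_trans u v w h h' := by
    cases u <;> cases v <;> cases w <;>
      first | exact trivial | exact h.elim | exact h'.elim | exact h | exact le_trans h h' |
        exact h.2 | exact ⟨x.low_le h h'.1, le_trans h h'.2⟩

/-- the old index below a node of the random step -/
@[reducible] def sh : x.TJ → I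
  | .old u => u
  | .Y => x.nY
  | .E j => x.nE j

theorem sh_mono : Monotone x.sh := fun u v h => by
  cases u <;> cases v <;>
    first | exact le_rfl | exact h.elim | exact h | exact le_trans h x.NY | exact x.EE h |
      exact (x.EE h).trans x.EY | exact (x.cut_E h.1 h.2).trans (x.EE (τ.bot_le _))

theorem old_mono : Monotone (TJ.old : I → x.TJ) := fun _ _ h => h

/-- the kinds inside the index set of the random step -/
@[reducible] def kj : KK τ → x.TJ
  | .root i => .old (x.nR i)
  | .nd .N => .old x.nN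
  | .nd .M => .old x.nM
  | .nd .C0 => .old x.nC
  | .nd .Y => .Y
  | .nd (.E j) => .E j

theorem kj_mono : Monotone x.kj := fun u v h => by
  rcases u with _ | _ | _ | _ | _ | _ <;> rcases v with _ | _ | _ | _ | _ | _ <;>
    first | exact le_rfl | exact h.elim | exact x.RR h | exact x.NM | exact x.CM | exact h |
      exact le_refl x.nN | exact (x.RR h).trans x.RN | exact ((x.RR h).trans x.RN).trans x.NM |
      exact x.cut_C (x.low_R _) ((x.RR h).trans x.RN) | exact ⟨x.low_R _, (x.RR h).trans x.RN⟩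

/-- the position of the kinds in the old index set -/
@[reducible] def κ (u : KK τ) : I := x.sh (x.kj u)

theorem κ_mono : Monotone x.κ := x.sh_mono.comp x.kj_mono

/-- the index set after the token step -/
inductive TI (x : Tix τ I) : Type
  | old (u : I)
  | pet (j : J)

/-- the order of `TI` -/
def TI.le {x : Tix τ I} : x.TI → x.TI → Prop
  | .old u, .old v => u ≤ v
  | .old u, .pet _ => x.low u ∧ u ≤ x.nN
  | .pet j, .old v => j ≤ τ.top ∧ ¬ x.low v
  | .pet j, .pet j' => j ≤ j'

instance : Preorder x.TI where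
  le := TI.le
  le_refl u := by cases u <;> simp [TI.le]
  le_trans u v w h h' := by
    cases u <;> cases v <;> cases w
    · exact le_trans (α := I) h h'
    · exact ⟨x.low_le h h'.1, le_trans h h'.2⟩
    · exact (x.up h'.2).elim (le_trans h.2) (le_trans (x.cut_C h.1 h.2))
    · exact h
    · exact ⟨h.1, fun e => h.2 (x.low_le h' e)⟩
    · exact absurd h'.1 h.2
    · exact ⟨le_trans h h'.1, h'.2⟩
    · exact le_trans (α := J) h h'

theorem oldI_mono : Monotone (TI.old : I → x.TI) := fun _ _ h => h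

/-- the template indices after the token step -/
@[reducible] def nw : TT τ → x.TI
  | .root i => .old (x.nR i)
  | .pet j => .pet j

theorem nw_mono : Monotone x.nw := fun u v h => by
  cases u <;> cases v <;>
    first | exact x.RR h | exact ⟨x.low_R _, (x.RR h).trans x.RN⟩ | exact h.elim | exact h

theorem top_le {u : I} (h : x.nN ≤ u) : (TI.pet τ.top : x.TI) ≤ .old u :=
  ⟨le_rfl, fun e => x.low_N (x.low_le h e)⟩

end Tix

/-- change the position map along an equation -/
theorem Mor.exists_cast {K : Type} [Preorder K] {Sk : Sys K} {S : Sys I} {f g : K → I}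
    {hf : Monotone f} (hg : Monotone g) (e : f = g) (m : Mor Sk (S.comap f hf)) :
    ∃ m' : Mor Sk (S.comap g hg), (∀ u (h : f u ≤ g u) y, m'.ι u y = S.e h (m.ι u y)) ∧
      ∀ u v (h : u ≤ v), m.Keeps h → m'.Keeps h := by
  subst e
  exact ⟨m, fun u h y => (S.e_refl h _).symm, fun _ _ _ H => H⟩

end Pool.Agent.Lib.MP_f79ffc_lc.U
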