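import Pool.Agent.Lib.MP_f79ffc_lc.U.L.Mor

/-! Expansion of terms: edges are replaced by zigzag chains of another index set. -/

namespace Pool.Agent.Lib.MP_f79ffc_lc.U

open Pool.Agent.Lib.MP_5d9fac_lc Cardinal

variable {I I₂ L : Type} [Preorder I] [Preorder I₂] [Preorder L]

/-- the head slot of an assignment over a pulled back system -/
abbrev Sys.hd (St : Sys L) {m : I → L} (hm : Monotone m) {i : I} (t : Tm I i)
    (a : (St.comap m hm).Asg t) : St.X (m i) := Fam.head (Y := (St.comap m hm).X) t a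

/-- zigzag chains from `w` to `u` -/
inductive Ch {I : Type} [Preorder I] : I → I → Type
  | nil (u : I) : Ch u u
  | emb {u v w : I} (h : v ≤ u) (c : Ch v w) : Ch u w
  | prj {u v w : I} (h : u ≤ v) (c : Ch v w) : Ch u w

namespace Ch

variable {Y Y' Y'' : I → Type}

/-- the operator of a chain -/
def op (S : Sys I) : ∀ {u w : I}, Ch u w → S.X w → S.X u
  | _, _, nil _, x => x
  | _, _, emb h c, x => S.e h (c.op S x)
  | _, _, prj h c, x => S.p h (c.op S x)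

/-- concatenation -/
def cat : ∀ {u v w : I}, Ch u v → Ch v w → Ch u w
  | _, _, _, nil _, d => d
  | _, _, _, emb h c, d => emb h (c.cat d)
  | _, _, _, prj h c, d => prj h (c.cat d)

theorem op_cat (S : Sys I) : ∀ {u v w : I} (c : Ch u v) (d : Ch v w) (x : S.X w),
    (c.cat d).op S x = c.op S (d.op S x)
  | _, _, _, nil _, _, _ => rfl
  | _, _, _, emb h c, d, x => congrArg (S.e h) (op_cat S c d x)
  | _, _, _, prj h c, d, x => congrArg (S.p h) (op_cat S c d x)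

theorem op_iSup (S : Sys I) {ι : Sort*} : ∀ {u w : I} (c : Ch u w) (x : ι → S.X w),
    c.op S (⨆ i, x i) = ⨆ i, c.op S (x i)
  | _, _, nil _, _ => rfl
  | _, _, emb h c, x => (congrArg (S.e h) (op_iSup S c x)).trans (map_iSup _ _)
  | _, _, prj h c, x => (congrArg (S.p h) (op_iSup S c x)).trans (pj_iSup _ _)

/-- a term hanging at the end of a chain -/
def plug : ∀ {u w : I}, Ch u w → Tm I w → Tm I u
  | _, _, nil _, s => s
  | u, _, emb h c, s => .emb (.var u) h (c.plug s)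
  | u, _, prj h c, s => .prj (.var u) h (c.plug s)

/-- fill the slots of the chain with `f` -/
def fill (f : ∀ u, Y u) : ∀ {u w : I} (c : Ch u w) (s : Tm I w), Fam Y s → Fam Y (c.plug s)
  | _, _, nil _, _, a => a
  | u, _, emb _ c, s, a => (f u, c.fill f s a)
  | u, _, prj _ c, s, a => (f u, c.fill f s a)

/-- forget the slots of the chain -/
def tail : ∀ {u w : I} (c : Ch u w) (s : Tm I w), Fam Y (c.plug s) → Fam Y s
  | _, _, nil _, _, a => a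
  | _, _, emb _ c, s, a => c.tail s a.2
  | _, _, prj _ c, s, a => c.tail s a.2

theorem map_fill (f : ∀ u, Y u) (g : ∀ u, Y u → Y' u) : ∀ {u w : I} (c : Ch u w) (s : Tm I w)
    (a : Fam Y s), Fam.map g _ (c.fill f s a) = c.fill (fun u => g u (f u)) s (Fam.map g s a)
  | _, _, nil _, _, _ => rfl
  | _, _, emb _ c, s, a => Prod.ext rfl (map_fill f g c s a)
  | _, _, prj _ c, s, a => Prod.ext rfl (map_fill f g c s a)

theorem map₂_fill (f : ∀ u, Y u) (f' : ∀ u, Y' u) (g : ∀ u, Y u → Y' u → Y'' u) :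
    ∀ {u w : I} (c : Ch u w) (s : Tm I w) (a : Fam Y s) (b : Fam Y' s),
      Fam.map₂ g _ (c.fill f s a) (c.fill f' s b) =
        c.fill (fun u => g u (f u) (f' u)) s (Fam.map₂ g s a b)
  | _, _, nil _, _, _, _ => rfl
  | _, _, emb _ c, s, a, b => Prod.ext rfl (map₂_fill f f' g c s a b)
  | _, _, prj _ c, s, a, b => Prod.ext rfl (map₂_fill f f' g c s a b)

theorem val_plug (S : Sys I) : ∀ {u w : I} (c : Ch u w) (s : Tm I w) (a : S.Asg s),
    S.val (c.plug s) (c.fill (fun _ => ⊤) s a) = c.op S (S.val s a)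
  | _, _, nil _, _, _ => rfl
  | _, _, emb h c, s, a => (top_inf_eq _).trans (congrArg (S.e h) (val_plug S c s a))
  | _, _, prj h c, s, a => (top_inf_eq _).trans (congrArg (S.p h) (val_plug S c s a))

theorem coh_tail {S : Sys I} : ∀ {u w : I} (c : Ch u w) (s : Tm I w) {a : S.Asg (c.plug s)},
    S.Coh _ a → S.Coh s (c.tail s a)
  | _, _, nil _, _, _, h => h
  | _, _, emb _ c, s, _, h => coh_tail c s h.2.1
  | _, _, prj _ c, s, _, h => coh_tail c s h.2.1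

/-- all nodes lie above `z` -/
def Ab (m : I → L) (z : L) : ∀ {u w : I}, Ch u w → Prop
  | u, _, nil _ => z ≤ m u
  | u, _, emb _ c => z ≤ m u ∧ c.Ab m z
  | u, _, prj _ c => z ≤ m u ∧ c.Ab m z

/-- the nodes lie above `z'` until a projection to `z`, then above `z` -/
def Dp (m : I → L) (z z' : L) : ∀ {u w : I}, Ch u w → Prop
  | _, _, nil _ => False
  | u, _, emb _ c => z ≤ m u ∧ c.Dp m z z'
  | u, _, prj _ c => z ≤ m u ∧ (c.Dp m z z' ∨ m u ≤ z ∧ c.Ab m z')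

variable {m : I → L} {z z' : L}

theorem Ab.fst : ∀ {u w : I} {c : Ch u w}, c.Ab m z → z ≤ m u
  | _, _, nil _, h => h
  | _, _, emb _ _, h => h.1
  | _, _, prj _ _, h => h.1

theorem Ab.mono (hz : z ≤ z') : ∀ {u w : I} {c : Ch u w}, c.Ab m z' → c.Ab m z
  | _, _, nil _, h => le_trans hz h
  | _, _, emb _ _, h => ⟨hz.trans h.1, Ab.mono hz h.2⟩
  | _, _, prj _ _, h => ⟨hz.trans h.1, Ab.mono hz h.2⟩

theorem Dp.ab (hz : z ≤ z') : ∀ {u w : I} {c : Ch u w}, c.Dp m z z' → c.Ab m z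
  | _, _, nil _, h => h.elim
  | _, _, emb _ _, h => ⟨h.1, Dp.ab hz h.2⟩
  | _, _, prj _ _, h => ⟨h.1, h.2.elim (Dp.ab hz) fun h => h.2.mono hz⟩

theorem Dp.cat : ∀ {u v w : I} {c : Ch u v} {d : Ch v w}, c.Ab m z → d.Dp m z z' →
    (c.cat d).Dp m z z'
  | _, _, _, nil _, _, _, h => h
  | _, _, _, emb _ _, _, h, h' => ⟨h.1, Dp.cat h.2 h'⟩
  | _, _, _, prj _ _, _, h, h' => ⟨h.1, Or.inl (Dp.cat h.2 h')⟩

theorem Ab.cat : ∀ {u v w : I} {c : Ch u v} {d : Ch v w}, c.Ab m z → d.Ab m z →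
    (c.cat d).Ab m z
  | _, _, _, nil _, _, _, h => h
  | _, _, _, emb _ _, _, h, h' => ⟨h.1, Ab.cat h.2 h'⟩
  | _, _, _, prj _ _, _, h, h' => ⟨h.1, Ab.cat h.2 h'⟩

variable {St : Sys L} {hm : Monotone m}

theorem Ab.head : ∀ {u w : I} {c : Ch u w} (s : Tm I w) {a : (St.comap m hm).Asg (c.plug s)},
    c.Ab m z → (St.comap m hm).Coh _ a → ∀ (h1 : z ≤ m u) (h2 : z ≤ m w),
      St.p h1 (St.hd hm _ a) = St.p h2 (St.hd hm s (c.tail s a))
  | _, _, nil _, _, _, _, _, _, _ => rfl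
  | _, _, emb h c, s, a, H, C, h1, h2 => by
    have e : St.p (hm h) (St.hd hm (.var _) a.1) = St.hd hm _ a.2 := C.2.2
    refine Eq.trans ?_ (Ab.head s H.2 C.2.1 H.2.fst h2)
    rw [← e]
    exact (Sys.p_p _ _ _).symm
  | _, _, prj h c, s, a, H, C, h1, h2 => by
    have e : St.p (hm h) (St.hd hm _ a.2) = St.hd hm (.var _) a.1 := C.2.2
    refine Eq.trans ?_ (Ab.head s H.2 C.2.1 H.2.fst h2)
    exact (congrArg (St.p h1) e.symm).trans (Sys.p_p _ _ _)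

theorem step_emb {u v : L} (h : v ≤ u) (h1 : z ≤ u) (h2 : z ≤ v) {x : St.X u} {y : St.X v}
    (e : St.p h x = y) (q : St.X z) : ⊤ ⊓ x ⊓ St.e h (y ⊓ St.e h2 q) = x ⊓ St.e h1 q := by
  rw [top_inf_eq, map_inf, St.e_trans, ← inf_assoc, inf_eq_left.2 (pj_le.1 e.le)]

theorem step_prj {u v : L} (h : u ≤ v) (h1 : z ≤ u) (h2 : z ≤ v) {x : St.X u} {y : St.X v}
    (e : St.p h y = x) (q : St.X z) : ⊤ ⊓ x ⊓ St.p h (y ⊓ St.e h2 q) = x ⊓ St.e h1 q := by
  rw [top_inf_eq, ← St.e_trans h1 h, Sys.p, pj_inf, ← inf_assoc]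
  exact congrArg (· ⊓ St.e h1 q) (inf_eq_left.2 e.ge)

theorem Ab.val : ∀ {u w : I} {c : Ch u w} (s : Tm I w) {a : (St.comap m hm).Asg (c.plug s)}
    (b : (St.comap m hm).Asg s), c.Ab m z → (St.comap m hm).Coh _ a →
    ∀ (h1 : z ≤ m u) (h2 : z ≤ m w) (q : St.X z),
      (St.comap m hm).val s ((St.comap m hm).inf s b (c.tail s a)) =
        St.hd hm s (c.tail s a) ⊓ St.e h2 q →
      (St.comap m hm).val _ ((St.comap m hm).inf _ (c.fill (fun _ => ⊤) s b) a) =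
        St.hd hm _ a ⊓ St.e h1 q
  | _, _, nil _, _, _, _, _, _, _, _, _, h => h
  | _, _, emb h _, s, a, b, H, C, h1, h2, q, e =>
    (congrArg (fun y => ⊤ ⊓ St.hd hm (.var _) a.1 ⊓ St.e (hm h) y) (Ab.val s b H.2 C.2.1 H.2.fst h2 q e)).trans
      (step_emb (hm h) h1 H.2.fst C.2.2 q)
  | _, _, prj h _, s, a, b, H, C, h1, h2, q, e =>
    (congrArg (fun y => ⊤ ⊓ St.hd hm (.var _) a.1 ⊓ St.p (hm h) y) (Ab.val s b H.2 C.2.1 H.2.fst h2 q e)).trans
      (step_prj (hm h) h1 H.2.fst C.2.2 q)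

theorem step_drop {u v : L} (h : u ≤ v) (h1 : z ≤ u) (h0 : u ≤ z) (hz : z ≤ z') (h2 : z' ≤ v)
    (x : St.X u) {y : St.X v} {q : St.X z'} (hq : q ≤ St.p h2 y) :
    ⊤ ⊓ x ⊓ St.p h (y ⊓ St.e h2 q) = x ⊓ St.e h1 (St.p hz q) := by
  have e1 : St.p h2 (y ⊓ St.e h2 q) = q := (pj_inf _ _ _).trans (inf_eq_right.2 hq)
  rw [top_inf_eq, ← Sys.p_p (h0.trans hz) h2, e1, ← Sys.p_p h0 hz, Sys.p_eq_e h0 h1]

theorem Dp.val (hz : z ≤ z') : ∀ {u w : I} {c : Ch u w} (s : Tm I w)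
    {a : (St.comap m hm).Asg (c.plug s)} (b : (St.comap m hm).Asg s), c.Dp m z z' →
    (St.comap m hm).Coh _ a → ∀ (h1 : z ≤ m u) (h2 : z' ≤ m w) (q : St.X z'),
      q ≤ St.p h2 (St.hd hm s (c.tail s a)) →
      (St.comap m hm).val s ((St.comap m hm).inf s b (c.tail s a)) =
        St.hd hm s (c.tail s a) ⊓ St.e h2 q →
      (St.comap m hm).val _ ((St.comap m hm).inf _ (c.fill (fun _ => ⊤) s b) a) =
        St.hd hm _ a ⊓ St.e h1 (St.p hz q)
  | _, _, nil _, _, _, _, H, _, _, _, _, _, _ => H.elim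
  | _, _, emb h c, s, a, b, H, C, h1, h2, q, hq, e =>
    (congrArg (fun y => ⊤ ⊓ St.hd hm (.var _) a.1 ⊓ St.e (hm h) y)
      (Dp.val hz s b H.2 C.2.1 (H.2.ab hz).fst h2 q hq e)).trans
      (step_emb (hm h) h1 (H.2.ab hz).fst C.2.2 _)
  | _, _, prj h c, s, a, b, H, C, h1, h2, q, hq, e => by
    rcases H.2 with D | D
    · exact (congrArg (fun y => ⊤ ⊓ St.hd hm (.var _) a.1 ⊓ St.p (hm h) y)
        (Dp.val hz s b D C.2.1 (D.ab hz).fst h2 q hq e)).trans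
        (step_prj (hm h) h1 (D.ab hz).fst C.2.2 _)
    · exact (congrArg (fun y => ⊤ ⊓ St.hd hm (.var _) a.1 ⊓ St.p (hm h) y)
        (Ab.val s b D.2 C.2.1 D.2.fst h2 q e)).trans
        (step_drop (hm h) h1 D.1 hz D.2.fst _
          (hq.trans (Ab.head s D.2 C.2.1 D.2.fst h2).ge))

end Ch

/-- one choice for every edge -/
def Wd (Ω : Type) : ∀ {i : I₂}, Tm I₂ i → Type
  | _, .var _ => Unit
  | _, .emb t _ s => Wd Ω t × Wd Ω s
  | _, .prj t _ s => Wd Ω t × Ω × Wd Ω s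

theorem Wd.countable {Ω : Type} [Countable Ω] : ∀ {i : I₂} (t : Tm I₂ i), Countable (Wd Ω t)
  | _, .var _ => inferInstanceAs (Countable Unit)
  | _, .emb t _ s => by
    have := Wd.countable (Ω := Ω) t
    have := Wd.countable (Ω := Ω) s
    exact inferInstanceAs (Countable (Wd Ω t × Wd Ω s))
  | _, .prj t _ s => by
    have := Wd.countable (Ω := Ω) t
    have := Wd.countable (Ω := Ω) s
    exact inferInstanceAs (Countable (Wd Ω t × Ω × Wd Ω s))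

/-- centres and chains for the indices and arrows of `I₂` -/
structure Xp (I₂ I Ω : Type) [Preorder I₂] [Preorder I] where
  c : I₂ → I
  up : ∀ {i j : I₂}, j ≤ i → Ch (c i) (c j)
  dn : ∀ {i j : I₂}, i ≤ j → Ω → Ch (c i) (c j)

namespace Xp

variable {Ω : Type} (x : Xp I₂ I Ω)

/-- the expanded term -/
def exp : ∀ {i : I₂} (t : Tm I₂ i), Wd Ω t → Tm I (x.c i)
  | _, .var i, _ => .var (x.c i)
  | _, .emb t h s, W => .emb (exp t W.1) le_rfl ((x.up h).plug (exp s W.2))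
  | _, .prj t h s, W => .emb (exp t W.1) le_rfl ((x.dn h W.2.1).plug (exp s W.2.2))

variable {Y Y' Y'' : I₂ → Type} {Z Z' Z'' : I → Type}

/-- slots of the expanded term: `κ` at the centres, `f` on the chains -/
def hat (κ : ∀ i, Y i → Z (x.c i)) (f : ∀ u, Z u) :
    ∀ {i : I₂} (t : Tm I₂ i) (W : Wd Ω t), Fam Y t → Fam Z (x.exp t W)
  | _, .var i, _, a => κ i a
  | _, .emb t h s, W, a => (hat κ f t W.1 a.1, (x.up h).fill f _ (hat κ f s W.2 a.2))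
  | _, .prj t h s, W, a => (hat κ f t W.1 a.1, (x.dn h W.2.1).fill f _ (hat κ f s W.2.2 a.2))

/-- the slots at the centres -/
def ctr (π : ∀ i, Z (x.c i) → Y i) :
    ∀ {i : I₂} (t : Tm I₂ i) (W : Wd Ω t), Fam Z (x.exp t W) → Fam Y t
  | _, .var i, _, a => π i a
  | _, .emb t h s, W, a => (ctr π t W.1 a.1, ctr π s W.2 ((x.up h).tail _ a.2))
  | _, .prj t h s, W, a => (ctr π t W.1 a.1, ctr π s W.2.2 ((x.dn h W.2.1).tail _ a.2))

theorem head_ctr (π : ∀ i, Z (x.c i) → Y i) : ∀ {i : I₂} (t : Tm I₂ i) (W : Wd Ω t)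
    (a : Fam Z (x.exp t W)), Fam.head t (x.ctr π t W a) = π i (Fam.head _ a)
  | _, .var _, _, _ => rfl
  | _, .emb t _ _, W, a => head_ctr π t W.1 a.1
  | _, .prj t _ _, W, a => head_ctr π t W.1 a.1

theorem map_hat {κ : ∀ i, Y i → Z (x.c i)} {κ' : ∀ i, Y' i → Z' (x.c i)} {f : ∀ u, Z u}
    {f' : ∀ u, Z' u} (g : ∀ u, Z u → Z' u) (g' : ∀ i, Y i → Y' i)
    (h1 : ∀ i y, g _ (κ i y) = κ' i (g' i y)) (h2 : ∀ u, g u (f u) = f' u) :
    ∀ {i : I₂} (t : Tm I₂ i) (W : Wd Ω t) (a : Fam Y t),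
      Fam.map g _ (x.hat κ f t W a) = x.hat κ' f' t W (Fam.map g' t a)
  | _, .var _, _, _ => h1 _ _
  | _, .emb t h s, W, a => Prod.ext (map_hat g g' h1 h2 t W.1 a.1)
      ((Ch.map_fill f g _ _ _).trans (by rw [funext h2, map_hat g g' h1 h2 s W.2 a.2]; rfl))
  | _, .prj t h s, W, a => Prod.ext (map_hat g g' h1 h2 t W.1 a.1)
      ((Ch.map_fill f g _ _ _).trans (by rw [funext h2, map_hat g g' h1 h2 s W.2.2 a.2]; rfl))

theorem map₂_hat {κ : ∀ i, Y i → Z (x.c i)} {κ' : ∀ i, Y' i → Z' (x.c i)}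
    {κ'' : ∀ i, Y'' i → Z'' (x.c i)} {f : ∀ u, Z u} {f' : ∀ u, Z' u} {f'' : ∀ u, Z'' u}
    (g : ∀ u, Z u → Z' u → Z'' u) (g' : ∀ i, Y i → Y' i → Y'' i)
    (h1 : ∀ i y y', g _ (κ i y) (κ' i y') = κ'' i (g' i y y'))
    (h2 : ∀ u, g u (f u) (f' u) = f'' u) :
    ∀ {i : I₂} (t : Tm I₂ i) (W : Wd Ω t) (a : Fam Y t) (b : Fam Y' t),
      Fam.map₂ g _ (x.hat κ f t W a) (x.hat κ' f' t W b) = x.hat κ'' f'' t W (Fam.map₂ g' t a b)
  | _, .var _, _, _, _ => h1 _ _ _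
  | _, .emb t h s, W, a, b => Prod.ext (map₂_hat g g' h1 h2 t W.1 a.1 b.1)
      ((Ch.map₂_fill f f' g _ _ _ _).trans
        (by rw [funext h2, map₂_hat g g' h1 h2 s W.2 a.2 b.2]; rfl))
  | _, .prj t h s, W, a, b => Prod.ext (map₂_hat g g' h1 h2 t W.1 a.1 b.1)
      ((Ch.map₂_fill f f' g _ _ _ _).trans
        (by rw [funext h2, map₂_hat g g' h1 h2 s W.2.2 a.2 b.2]; rfl))

/-- the arrows and projections of `S₂` are computed by the chains in `S` -/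
structure Ok (S₂ : Sys I₂) (S : Sys I) (κ : ∀ i, Hm (S₂.X i) (S.X (x.c i))) : Prop where
  up : ∀ {i j : I₂} (h : j ≤ i) (y : S₂.X j), κ i (S₂.e h y) = (x.up h).op S (κ j y)
  dn : ∀ {i j : I₂} (h : i ≤ j) (y : S₂.X j), κ i (S₂.p h y) = ⨆ ω, (x.dn h ω).op S (κ j y)

variable {x} {S₂ : Sys I₂} {S : Sys I} {κ : ∀ i, Hm (S₂.X i) (S.X (x.c i))}

theorem Ok.val (H : x.Ok S₂ S κ) : ∀ {i : I₂} (t : Tm I₂ i) (a : S₂.Asg t),
    κ i (S₂.val t a) = ⨆ W, S.val _ (x.hat (fun i => κ i) (fun _ => ⊤) t W a)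
  | _, .var _, _ => (iSup_const (ι := Unit)).symm
  | i, .emb t h s, a => by
    show κ i (S₂.val t a.1 ⊓ S₂.e h (S₂.val s a.2)) = ⨆ W : Wd Ω t × Wd Ω s,
      S.val _ (x.hat _ _ t W.1 a.1) ⊓ S.e le_rfl (S.val _ ((x.up h).fill _ _ (x.hat _ _ s W.2 a.2)))
    simp only [S.e_refl, Ch.val_plug]
    rw [map_inf, H.up, Ok.val H t, Ok.val H s, Ch.op_iSup, iSup_inf_iSup]
  | i, .prj t h s, a => by
    show κ i (S₂.val t a.1 ⊓ S₂.p h (S₂.val s a.2)) = ⨆ W : Wd Ω t × Ω × Wd Ω s,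
      S.val _ (x.hat _ _ t W.1 a.1) ⊓
        S.e le_rfl (S.val _ ((x.dn h W.2.1).fill _ _ (x.hat _ _ s W.2.2 a.2)))
    simp only [S.e_refl, Ch.val_plug]
    rw [map_inf, H.dn, Ok.val H t, Ok.val H s]
    simp only [Ch.op_iSup]
    rw [iSup_prod', iSup_inf_iSup]

theorem Ok.ne_of (H : x.Ok S₂ S κ) {i : I₂} (t : Tm I₂ i) {a : S₂.Asg t} (W : Wd Ω t)
    (h : S.val _ (x.hat (fun i => κ i) (fun _ => ⊤) t W a) ≠ ⊥) : S₂.val t a ≠ ⊥ := fun h0 => by
  have := H.val t a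
  rw [h0, map_bot, eq_comm, iSup_eq_bot] at this
  exact h (this W)

theorem Ok.exists_ne (H : x.Ok S₂ S κ) (hκ : ∀ i, Function.Injective (κ i)) {i : I₂}
    (t : Tm I₂ i) {a : S₂.Asg t} (h : S₂.val t a ≠ ⊥) :
    ∃ W, S.val _ (x.hat (fun i => κ i) (fun _ => ⊤) t W a) ≠ ⊥ :=
  exists_ne_bot (H.val t a ▸ hm_ne_bot (hκ i) h)

theorem Ok.K [Countable Ω] (H : x.Ok S₂ S κ) (hκ : ∀ i, Function.Injective (κ i)) (hK : S.K) :
    S₂.K := by
  refine Sys.K_of_tm fun ι h1 h2 i t a A₀ h3 h4 => ?_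
  have := Wd.countable (Ω := Ω) t
  obtain ⟨W, A₁, h5, h6, h7⟩ := exists_fiber' h1 h2 h3 _ fun k hk => H.exists_ne hκ t (h4 k hk)
  refine (hK.tm h1 h2 _ (x.hat (Y := fun i => ι → S₂.X i) (Z := fun u => ι → S.X u)
    (fun i p k => κ i (p k)) (fun _ _ => ⊤) t W a) h6 fun k hk => ?_).mono h5 fun F _ hF => ?_
  · rw [Sys.mem, x.map_hat (Y := fun i => ι → S₂.X i) (Z := fun u => ι → S.X u)
      (κ := fun i p k => κ i (p k)) (f := fun _ _ => ⊤) (κ' := fun i => κ i) (f' := fun _ => ⊤)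
      (fun _ p => p k) (fun _ p => p k) (fun _ _ => rfl) fun _ => rfl]
    exact h7 k hk
  · rw [Sys.fin, x.map_hat (Y := fun i => ι → S₂.X i) (Z := fun u => ι → S.X u)
      (κ := fun i p k => κ i (p k)) (f := fun _ _ => ⊤) (κ' := fun i => κ i) (f' := fun _ => ⊤)
      (fun _ p => F.inf p) (fun _ p => F.inf p)
      (fun i p => (map_finset_inf (κ i) F p).symm) fun _ => Finset.inf_top F] at hF
    exact H.ne_of t W hF

/-- the chains respect the template indices -/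
structure Tr (x : Xp I₂ I Ω) (l : I₂ → L) (m : I → L) : Prop where
  le : ∀ i, l i ≤ m (x.c i)
  up : ∀ {i j : I₂} (h : j ≤ i), (x.up h).Ab m (l j)
  dn : ∀ {i j : I₂} (h : i ≤ j) (ω : Ω), (x.dn h ω).Dp m (l i) (l j)

variable {l : I₂ → L} {m : I → L} {St : Sys L} {hl : Monotone l} {hm : Monotone m}

theorem Tr.hd (H : x.Tr l m) {i : I₂} (t : Tm I₂ i) (W : Wd Ω t)
    (a : (St.comap m hm).Asg (x.exp t W)) :
    St.hd hl t (x.ctr (fun i => St.p (H.le i)) t W a) = St.p (H.le i) (St.hd hm _ a) :=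
  x.head_ctr (Y := (St.comap l hl).X) (Z := (St.comap m hm).X) (fun i => St.p (H.le i)) t W a

theorem Tr.coh (H : x.Tr l m) : ∀ {i : I₂} (t : Tm I₂ i) (W : Wd Ω t)
    {a : (St.comap m hm).Asg (x.exp t W)}, (St.comap m hm).Coh _ a →
      (St.comap l hl).Coh t (x.ctr (fun i => St.p (H.le i)) t W a)
  | _, .var i, _, _, C => (pj_ne_bot (f := St.e (H.le i))).2 C
  | i, .emb t h s, W, a, C => ⟨Tr.coh H t W.1 C.1, Tr.coh H s W.2 (Ch.coh_tail _ _ C.2.1), by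
      have e : St.p (hm le_rfl) (St.hd hm _ a.1) = St.hd hm _ a.2 := C.2.2
      rw [Sys.p_refl] at e
      refine (congrArg (St.p (hl h)) (H.hd (hl := hl) t W.1 a.1)).trans ((Sys.p_p _ _ _).trans
        (Eq.trans ?_ (H.hd (hl := hl) s W.2 ((x.up h).tail _ a.2)).symm))
      rw [e]
      exact (H.up h).head _ C.2.1 _ _⟩
  | i, .prj t h s, W, a, C => ⟨Tr.coh H t W.1 C.1, Tr.coh H s W.2.2 (Ch.coh_tail _ _ C.2.1), by
      have e : St.p (hm le_rfl) (St.hd hm _ a.1) = St.hd hm _ a.2 := C.2.2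
      rw [Sys.p_refl] at e
      refine (congrArg (St.p (hl h)) (H.hd (hl := hl) s W.2.2 ((x.dn h W.2.1).tail _ a.2))).trans
        ((Sys.p_p _ _ _).trans (Eq.trans ?_ (H.hd (hl := hl) t W.1 a.1).symm))
      rw [e]
      exact (((H.dn h W.2.1).ab (hl h)).head _ C.2.1 _ _).symm⟩

theorem Tr.val (H : x.Tr l m) : ∀ {i : I₂} (t : Tm I₂ i) (W : Wd Ω t)
    {a : (St.comap m hm).Asg (x.exp t W)} {σ : (St.comap l hl).Asg t}, (St.comap m hm).Coh _ a →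
      (St.comap l hl).Le t σ (x.ctr (fun i => St.p (H.le i)) t W a) →
      (St.comap m hm).val _ ((St.comap m hm).inf _
        (x.hat (fun i => St.e (H.le i)) (fun _ => ⊤) t W σ) a) =
        St.hd hm _ a ⊓ St.e (H.le i) ((St.comap l hl).val t σ)
  | _, .var _, _, _, _, _, _ => inf_comm (α := St.X _) _ _
  | i, .emb t h s, W, a, σ, C, hσ => by
    have e : St.p (hm le_rfl) (St.hd hm _ a.1) = St.hd hm _ a.2 := C.2.2
    rw [Sys.p_refl] at e
    have e1 := Tr.val H t W.1 C.1 hσ.1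
    have e2 := (H.up h).val _ _ C.2.1 ((hl h).trans (H.le i)) (H.le _) _
      (Tr.val H s W.2 (Ch.coh_tail _ _ C.2.1) hσ.2)
    refine (congrArg₂ (fun y z => y ⊓ St.e (hm le_rfl) z) e1 e2).trans ?_
    show _ = St.hd hm _ a.1 ⊓ St.e (H.le i) (_ ⊓ St.e (hl h) _)
    rw [St.e_refl, map_inf, St.e_trans, ← e, ← inf_inf_distrib_left]
  | i, .prj t h s, W, a, σ, C, hσ => by
    have e : St.p (hm le_rfl) (St.hd hm _ a.1) = St.hd hm _ a.2 := C.2.2
    rw [Sys.p_refl] at e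
    have e1 := Tr.val H t W.1 C.1 hσ.1
    have e2 := (H.dn h W.2.1).val (hl h) _ _ C.2.1 (H.le i) (H.le _) _
      ((Sys.val_le_head s σ.2).trans ((Sys.head_mono hσ.2).trans (x.head_ctr _ s W.2.2 _).le))
      (Tr.val H s W.2.2 (Ch.coh_tail _ _ C.2.1) hσ.2)
    refine (congrArg₂ (fun y z => y ⊓ St.e (hm le_rfl) z) e1 e2).trans ?_
    show _ = St.hd hm _ a.1 ⊓ St.e (H.le i) (_ ⊓ St.p (hl h) _)
    rw [St.e_refl, map_inf, ← e, ← inf_inf_distrib_left]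

/-- reductions for all terms, from the expanded terms -/
theorem red (H : x.Ok S₂ S κ) (hκ : ∀ i, Function.Injective (κ i)) (T : x.Tr l m)
    (φ₂ : ∀ i, Hm (St.X (l i)) (S₂.X i)) (φ : ∀ u, Hm (St.X (m u)) (S.X u))
    (hφ : ∀ i y, κ i (φ₂ i y) = φ _ (St.e (T.le i) y))
    (g1 : ∀ {u : I} (t : Tm I u) (a : S.Asg t), S.val t a ≠ ⊥ →
      ∀ DD : (St.comap m hm).Asg t → Prop,
      (∀ lam, (St.comap m hm).Coh t lam →
        ∃ σ, DD σ ∧ (St.comap m hm).val t ((St.comap m hm).inf t σ lam) ≠ ⊥) →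
      ∃ σ, DD σ ∧ S.val t (S.inf t a (Fam.map (fun u => φ u) t σ)) ≠ ⊥)
    {i : I₂} (t : Tm I₂ i) (a : S₂.Asg t) (h : S₂.val t a ≠ ⊥) :
    ∃ σ : (St.comap l hl).Asg t, (St.comap l hl).val t σ ≠ ⊥ ∧
      ∀ b : (St.comap l hl).Asg t, (St.comap l hl).Le t b σ → (St.comap l hl).val t b ≠ ⊥ →
        S₂.val t (S₂.inf t a (Fam.map (fun i => φ₂ i) t b)) ≠ ⊥ := by
  by_contra hc
  push Not at hc
  obtain ⟨W, hW⟩ := H.exists_ne hκ t h
  obtain ⟨_, ⟨σ, rfl, h1⟩, h2⟩ := g1 _ _ hW (fun s => ∃ σ : (St.comap l hl).Asg t,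
      x.hat (fun i => St.e (T.le i)) (fun _ => ⊤) t W σ = s ∧
        S₂.val t (S₂.inf t a (Fam.map (fun i => φ₂ i) t σ)) = ⊥) fun lam C => by
    obtain ⟨b, h1, h2, h3⟩ := hc _ (T.coh (hl := hl) t W C).val_ne
    refine ⟨_, ⟨b, rfl, h3⟩, ?_⟩
    rw [T.val t W C h1, inf_map_ne_bot, inf_eq_right.2
      ((Sys.val_le_head t b).trans ((Sys.head_mono h1).trans (x.head_ctr _ t W _).le))]
    exact h2
  rw [x.map_hat (κ' := fun i => κ i) (f' := fun _ => ⊤) (fun u => φ u) (fun i => φ₂ i)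
    (fun i y => (hφ i y).symm) (fun u => map_top (φ u)), Sys.inf,
    x.map₂_hat (κ'' := fun i => κ i) (f'' := fun _ => ⊤) _ (fun _ y y' => y ⊓ y')
      (fun i y y' => (map_inf (κ i) y y').symm) fun _ => inf_idem _] at h2
  exact H.ne_of t W h2 h1

end Xp

end Pool.Agent.Lib.MP_f79ffc_lc.U
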