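import Pool.Agent.Lib.MP_f79ffc_lc.U.T.Defs
import Pool.Agent.Lib.MP_f79ffc_lc.U.T.Xp

/-! The petal algebras and the system after the token step. -/

namespace Pool.Agent.Lib.MP_f79ffc_lc.U

open Pool.Agent.Lib.MP_5d9fac_lc Cardinal

section Sub
variable {A B Z : Type} [CompleteBooleanAlgebra A] [CompleteBooleanAlgebra B]
  [CompleteBooleanAlgebra Z]

/-- complete subalgebras -/
structure CSub (s : Set Z) : Prop where
  sSup : ∀ t ⊆ s, sSup t ∈ s
  compl : ∀ x ∈ s, xᶜ ∈ s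

theorem CSub.univ : CSub (Set.univ : Set Z) := ⟨fun _ _ => trivial, fun _ _ => trivial⟩

theorem CSub.pre {s : Set Z} (h : CSub s) (f : Hm A Z) : CSub (f ⁻¹' s) :=
  ⟨fun t ht => by
    show f _ ∈ s
    rw [map_sSup]
    exact h.sSup _ (Set.image_subset_iff.2 ht), fun x hx => by
    show f _ ∈ s
    rw [hm_compl]
    exact h.compl _ hx⟩

theorem CSub.img {s : Set A} (h : CSub s) (f : Hm A Z) : CSub (f '' s) :=
  ⟨fun t ht => ⟨_, h.sSup (s ∩ f ⁻¹' t) Set.inter_subset_left, by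
    rw [map_sSup, Set.image_inter_preimage, Set.inter_eq_right.2 ht]⟩, by
    rintro _ ⟨x, hx, rfl⟩
    exact ⟨_, h.compl x hx, hm_compl f x⟩⟩

theorem CSub.iInter {ι : Sort*} {s : ι → Set Z} (h : ∀ i, CSub (s i)) : CSub (⋂ i, s i) :=
  ⟨fun t ht => Set.mem_iInter.2 fun i => (h i).sSup t (ht.trans (Set.iInter_subset s i)),
    fun x hx => Set.mem_iInter.2 fun i => (h i).compl x (Set.mem_iInter.1 hx i)⟩

/-- the subalgebra as a relative subalgebra -/
def CSub.rs {s : Set Z} (h : CSub s) : RS Z where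
  top := ⊤
  car := s
  le_top _ _ := le_top
  top_mem := by simpa using h.compl _ (h.sSup ∅ (Set.empty_subset _))
  sSup_mem := h.sSup
  inf_mem x hx y hy := by
    have := h.compl _ (h.sSup {xᶜ, yᶜ} (by
      rintro _ (rfl | rfl)
      exacts [h.compl x hx, h.compl y hy]))
    rwa [sSup_pair, compl_sup, compl_compl, compl_compl] at this
  cpl_mem x hx := by rw [top_inf_eq]; exact h.compl x hx

/-- the inclusion -/
noncomputable def CSub.inc {s : Set Z} (h : CSub s) : Hm h.rs.T Z :=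
  mkHm Subtype.val RS.val_sSup (fun _ _ => rfl) rfl

/-- restriction of the codomain -/
noncomputable def CSub.res {s : Set Z} (h : CSub s) (f : Hm A Z) (hf : ∀ a, f a ∈ s) :
    Hm A h.rs.T :=
  RS.lift f hf (fun t => by rw [map_sSup, sSup_image]) (map_inf f) (map_top f)

theorem map_pj_of_mem {g : Hm B Z} {z : Z} (h : z ∈ Set.range g) : g (pj g z) = z := by
  obtain ⟨b, rfl⟩ := h
  exact le_antisymm (hm_mono g (pj_le.2 le_rfl)) (le_map_pj g _)

/-- factor through an injective homomorphism -/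
noncomputable def fac (g : Hm B Z) (hg : Function.Injective g) (f : Hm A Z)
    (h : ∀ a, f a ∈ Set.range g) : Hm A B :=
  mkHm (fun a => pj g (f a)) (fun s => by simp only [sSup_eq_iSup, map_iSup, pj_iSup])
    (fun a b => hg (by simp only [map_inf g, map_pj_of_mem (h _)]; exact map_inf f a b))
    (by rw [map_top, pj_top hg])

theorem map_fac (g : Hm B Z) (hg : Function.Injective g) (f : Hm A Z)
    (h : ∀ a, f a ∈ Set.range g) (a : A) : g (fac g hg f h a) = f a := map_pj_of_mem (h a)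

end Sub

variable {R J L I K : Type} [Preorder R] [Preorder J] [Preorder L] [Preorder I] [Preorder K]

/-- chains along a monotone map -/
def Ch.map (f : K → I) (hf : Monotone f) : ∀ {u w : K}, Ch u w → Ch (f u) (f w)
  | _, _, .nil u => .nil (f u)
  | _, _, .emb h c => .emb (hf h) (c.map f hf)
  | _, _, .prj h c => .prj (hf h) (c.map f hf)

theorem Ch.op_map (S : Sys I) (f : K → I) (hf : Monotone f) : ∀ {u w : K} (c : Ch u w)
    (y : S.X (f w)), (c.map f hf).op S y = c.op (S.comap f hf) y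
  | _, _, .nil _, _ => rfl
  | _, _, .emb h c, y => congrArg (S.e (hf h)) (Ch.op_map S f hf c y)
  | _, _, .prj h c, y => congrArg (S.p (hf h)) (Ch.op_map S f hf c y)

theorem Ch.op_mono (S : Sys I) {u w : I} (c : Ch u w) {y y' : S.X w} (h : y ≤ y') :
    c.op S y ≤ c.op S y' := by
  have := c.op_iSup S fun b : Bool => cond b y y'
  rw [iSup_bool_eq, iSup_bool_eq, cond_true, cond_false, sup_eq_right.2 h] at this
  exact this.ge.trans' le_sup_left

variable {τ : Tp R J L}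

/-- the loop through all generator nodes -/
def lp {j : J} (h : j ≤ τ.top) : Ch (.nd (.E j) : KK τ) (.nd (.E j)) :=
  .prj (KK.EY h) (.emb KK.NY (.prj KK.NM (.emb KK.CM (.prj KK.CM (.emb KK.NM (.prj KK.NY
    (.emb (KK.EY h) (.nil _))))))))

/-- the iterated loop -/
def lpn {j : J} (h : j ≤ τ.top) : ℕ → Ch (.nd (.E j) : KK τ) (.nd (.E j))
  | 0 => .nil _
  | n + 1 => (lp h).cat (lpn h n)

open Classical in
/-- the iterated loop at cuts, nothing at the other indices -/
noncomputable def loop (τ : Tp R J L) (j : J) (n : ℕ) : Ch (.nd (.E j) : KK τ) (.nd (.E j)) :=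
  if h : j ≤ τ.top then lpn h n else .nil _

theorem loop_ab (j : J) (n : ℕ) : (loop τ j n).Ab τ.ktm (τ.w j) := by
  unfold loop
  split_ifs with h
  · induction n with
    | zero => exact le_refl (τ.w j)
    | succ n ih =>
      exact Ch.Ab.cat (c := lp h) ⟨le_rfl, τ.wm h, τ.wm h, τ.wm h, τ.wm h, τ.wm h, τ.wm h, τ.wm h,
        le_refl (τ.w j)⟩ ih
  · exact le_refl (τ.w j)

section Petal
variable (S : Sys (KK τ))

/-- the elements of `E j` that come from `N` and from the core -/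
def pet (j : J) : Set (S.X (.nd (.E j))) :=
  ⋂ h : j ≤ τ.top, S.e (KK.EY h) ⁻¹' (S.e KK.NY '' (S.e KK.NM ⁻¹' (S.e KK.CM '' Set.univ)))

theorem pet_sub (j : J) : CSub (pet S j) :=
  CSub.iInter fun _ => (((CSub.univ.img _).pre _).img _).pre _

variable {S}

theorem mem_pet {j : J} {y : S.X (.nd (.E j))} : y ∈ pet S j ↔ ∀ h : j ≤ τ.top,
    ∃ n c, S.e KK.NY n = S.e (KK.EY h) y ∧ S.e KK.CM c = S.e KK.NM n :=
  Set.mem_iInter.trans (forall_congr' fun _ =>
    ⟨fun ⟨n, ⟨c, _, h1⟩, h2⟩ => ⟨n, c, h2, h1⟩, fun ⟨n, c, h1, h2⟩ => ⟨n, ⟨c, trivial, h2⟩, h1⟩⟩)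

theorem lp_op {j : J} (h : j ≤ τ.top) (y : S.X (.nd (.E j))) : (lp h).op S y =
    S.p (KK.EY h) (S.e KK.NY (S.p KK.NM (S.e KK.CM (S.p KK.CM (S.e KK.NM (S.p KK.NY
      (S.e (KK.EY h) y))))))) := rfl

theorem lp_of_mem {j : J} (h : j ≤ τ.top) {y : S.X (.nd (.E j))} (hy : y ∈ pet S j) :
    (lp h).op S y = y := by
  obtain ⟨n, c, h1, h2⟩ := mem_pet.1 hy h
  rw [lp_op, ← h1, Sys.p_e, ← h2, Sys.p_e, h2, Sys.p_e, h1, Sys.p_e]

theorem mem_of_lp {j : J} {y : S.X (.nd (.E j))} (H : ∀ h : j ≤ τ.top, (lp h).op S y ≤ y) :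
    y ∈ pet S j := mem_pet.2 fun h => by
  have h1 := pj_le.1 (H h)
  have h2 := le_map_pj (S.e KK.NY) (S.e (KK.EY h) y)
  have h3 := le_map_pj (S.e KK.CM) (S.e KK.NM (S.p KK.NY (S.e (KK.EY h) y)))
  have h4 := pj_mono (S.e KK.NM) h3
  rw [pj_map (S.inj _)] at h4
  exact ⟨_, _, le_antisymm ((hm_mono _ h4).trans h1) h2,
    le_antisymm (pj_le.1 ((hm_le_iff (S.inj KK.NY)).1 (h1.trans h2))) h3⟩

theorem loop_le {j : J} {z a : S.X (.nd (.E j))} (ha : a ∈ pet S j) (h : z ≤ a) (n : ℕ) :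
    (loop τ j n).op S z ≤ a := by
  unfold loop
  split_ifs with hj
  · induction n with
    | zero => exact h
    | succ n ih =>
      exact (Ch.op_cat S _ _ z).le.trans (((lp hj).op_mono S ih).trans (lp_of_mem hj ha).le)
  · exact h

theorem loop_zero {j : J} (z : S.X (.nd (.E j))) : (loop τ j 0).op S z = z := by
  unfold loop
  split_ifs <;> rfl

theorem loop_mem {j : J} (z : S.X (.nd (.E j))) : ⨆ n, (loop τ j n).op S z ∈ pet S j :=
  mem_of_lp fun h => by
    rw [Ch.op_iSup]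
    refine iSup_le fun n => le_iSup_of_le (n + 1) ?_
    simp only [loop, dif_pos h]
    exact (Ch.op_cat S _ _ z).ge

/-- the projection to the petal algebra is computed by the loops -/
theorem loop_eq {j : J} {z : S.X (.nd (.E j))} {a : (pet_sub S j).rs.T}
    (h : ∀ b : (pet_sub S j).rs.T, a ≤ b ↔ z ≤ b.1) : a.1 = ⨆ n, (loop τ j n).op S z :=
  le_antisymm ((h ⟨_, loop_mem z⟩).2 (le_iSup_of_le 0 (loop_zero z).ge))
    (iSup_le (loop_le a.2 ((h a).1 le_rfl)))

variable (S)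

/-- the petal algebra inside `N` -/
noncomputable def nA {j : J} (h : j ≤ τ.top) : Hm (pet_sub S j).rs.T (S.X (.nd .N)) :=
  fac (S.e KK.NY) (S.inj _) ((S.e (KK.EY h)).comp (pet_sub S j).inc) fun a =>
    (mem_pet.1 a.2 h).imp fun _ H => H.elim fun _ H => H.1

theorem e_nA {j : J} (h : j ≤ τ.top) (a : (pet_sub S j).rs.T) :
    S.e KK.NY (nA S h a) = S.e (KK.EY h) a.1 := map_fac _ _ _ _ a

/-- the petal algebra inside the core -/
noncomputable def cA {j : J} (h : j ≤ τ.top) : Hm (pet_sub S j).rs.T (S.X (.nd .C0)) :=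
  fac (S.e KK.CM) (S.inj _) ((S.e KK.NM).comp (nA S h)) fun a => by
    obtain ⟨n, c, h1, h2⟩ := mem_pet.1 a.2 h
    obtain rfl : n = nA S h a := S.inj _ (h1.trans (e_nA S h a).symm)
    exact ⟨c, h2⟩

theorem e_cA {j : J} (h : j ≤ τ.top) (a : (pet_sub S j).rs.T) :
    S.e KK.CM (cA S h a) = S.e KK.NM (nA S h a) := map_fac _ _ _ _ a

theorem nA_inj {j : J} (h : j ≤ τ.top) : Function.Injective (nA S h) := fun a b e =>
  RS.ext (S.inj (KK.EY h) (by rw [← e_nA S h, ← e_nA S h, e]))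

theorem cA_inj {j : J} (h : j ≤ τ.top) : Function.Injective (cA S h) := fun a b e =>
  nA_inj S h (S.inj KK.NM (by rw [← e_cA S h, ← e_cA S h, e]))

theorem le_nA {j : J} (h : j ≤ τ.top) {y : S.X (.nd .N)} {a : (pet_sub S j).rs.T} :
    y ≤ nA S h a ↔ S.p (KK.EY h) (S.e KK.NY y) ≤ a.1 := by
  rw [pj_le, ← e_nA, hm_le_iff (S.inj _)]

theorem le_cA {j : J} (h : j ≤ τ.top) {y : S.X (.nd .C0)} {a : (pet_sub S j).rs.T} :
    y ≤ cA S h a ↔ S.p KK.NM (S.e KK.CM y) ≤ nA S h a := by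
  rw [pj_le, ← e_cA, hm_le_iff (S.inj _)]

end Petal

namespace Tix

variable (x : Tix τ I) (S1 : Sys x.TJ)

/-- the random step over the kinds -/
abbrev Sk : Sys (KK τ) := S1.comap x.kj x.kj_mono

/-- the algebras after the token step -/
@[reducible] def pX : x.TI → Type
  | .old u => S1.X (.old u)
  | .pet j => (pet_sub (x.Sk S1) j).rs.T

/-- their structure -/
@[reducible] noncomputable def pI : ∀ i, CompleteBooleanAlgebra (x.pX S1 i)
  | .old u => S1.inst (.old u)
  | .pet j => inferInstanceAs (CompleteBooleanAlgebra (pet_sub (x.Sk S1) j).rs.T)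

attribute [local instance] pI

theorem oE {u : I} {j : J} (h : (TI.old u : x.TI) ≤ .pet j) : (TJ.old u : x.TJ) ≤ .E j := h

theorem low_mem {u : I} {j : J} (h : (TI.old u : x.TI) ≤ .pet j) (y : S1.X (.old u)) :
    S1.e (x.oE h) y ∈ pet (x.Sk S1) j := mem_pet.2 fun _ =>
  ⟨S1.e (x.old_mono h.2) y, S1.e (x.old_mono (x.cut_C h.1 h.2)) y,
    (S1.e_trans _ _ y).trans (S1.e_trans _ _ y).symm,
    (S1.e_trans _ _ y).trans (S1.e_trans _ _ y).symm⟩

theorem pet_mem {j j' : J} (h : j ≤ j') (y : (pet_sub (x.Sk S1) j).rs.T) :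
    (x.Sk S1).e (KK.EE h) y.1 ∈ pet (x.Sk S1) j' := mem_pet.2 fun h' => by
  obtain ⟨n, c, h1, h2⟩ := mem_pet.1 y.2 (h.trans h')
  exact ⟨n, c, h1.trans ((x.Sk S1).e_trans _ _ _).symm, h2⟩

open Classical in
/-- the arrows after the token step -/
noncomputable def pE : ∀ {i j : x.TI}, i ≤ j → Hm (x.pX S1 i) (x.pX S1 j)
  | .old _, .old _, h => S1.e (x.old_mono h)
  | .old _, .pet j, h => (pet_sub (x.Sk S1) j).res (S1.e (x.oE h)) (x.low_mem S1 h)
  | .pet j, .pet j', h => (pet_sub (x.Sk S1) j').res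
      (((x.Sk S1).e (KK.EE h)).comp (pet_sub (x.Sk S1) j).inc) (x.pet_mem S1 h)
  | .pet _, .old v, h =>
      if hN : x.nN ≤ v then (S1.e (x.old_mono hN)).comp (nA (x.Sk S1) h.1)
      else (S1.e (x.old_mono ((x.up h.2).resolve_left hN))).comp (cA (x.Sk S1) h.1)

variable {x S1}

theorem pE_N {j : J} {v : I} (h : (TI.pet j : x.TI) ≤ .old v) (hN : x.nN ≤ v)
    (y : x.pX S1 (.pet j)) : x.pE S1 h y = S1.e (x.old_mono hN) (nA (x.Sk S1) h.1 y) := by
  simp only [pE, dif_pos hN]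
  rfl

theorem pE_C {j : J} {v : I} (h : (TI.pet j : x.TI) ≤ .old v) (hC : x.nC ≤ v)
    (y : x.pX S1 (.pet j)) : x.pE S1 h y = S1.e (x.old_mono hC) (cA (x.Sk S1) h.1 y) := by
  by_cases hN : x.nN ≤ v
  · have h1 := congrArg (S1.e (x.old_mono (x.both hN hC))) (e_cA (x.Sk S1) h.1 y)
    rw [pE_N h hN]
    exact ((S1.e_trans _ _ _).symm.trans (h1.symm.trans (S1.e_trans _ _ _)))
  · simp only [pE, dif_neg hN]
    rfl

theorem nA_low {u : I} {j : J} (h : (TI.old u : x.TI) ≤ .pet j) (hj : j ≤ τ.top)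
    (y : S1.X (.old u)) : nA (x.Sk S1) hj (x.pE S1 h y) = S1.e (x.old_mono h.2) y :=
  (x.Sk S1).inj KK.NY ((e_nA _ hj _).trans ((S1.e_trans _ _ y).trans (S1.e_trans _ _ y).symm))

theorem cA_low {u : I} {j : J} (h : (TI.old u : x.TI) ≤ .pet j) (hj : j ≤ τ.top)
    (y : S1.X (.old u)) :
    cA (x.Sk S1) hj (x.pE S1 h y) = S1.e (x.old_mono (x.cut_C h.1 h.2)) y :=
  (x.Sk S1).inj KK.CM ((e_cA _ hj _).trans ((congrArg _ (nA_low h hj y)).trans
    ((S1.e_trans _ _ y).trans (S1.e_trans _ _ y).symm)))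

theorem nA_pet {j j' : J} (h : (TI.pet j : x.TI) ≤ .pet j') (hj : j' ≤ τ.top)
    (y : x.pX S1 (.pet j)) :
    nA (x.Sk S1) hj (x.pE S1 h y) = nA (x.Sk S1) (le_trans (α := J) h hj) y :=
  (x.Sk S1).inj KK.NY ((e_nA _ hj _).trans (((x.Sk S1).e_trans _ _ _).trans (e_nA _ _ y).symm))

theorem cA_pet {j j' : J} (h : (TI.pet j : x.TI) ≤ .pet j') (hj : j' ≤ τ.top)
    (y : x.pX S1 (.pet j)) :
    cA (x.Sk S1) hj (x.pE S1 h y) = cA (x.Sk S1) (le_trans (α := J) h hj) y :=
  (x.Sk S1).inj KK.CM ((e_cA _ hj _).trans ((congrArg _ (nA_pet h hj y)).trans (e_cA _ _ y).symm))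

variable (x S1)

/-- the system after the token step -/
noncomputable def S2 : Sys x.TI where
  X := x.pX S1
  inst := x.pI S1
  e := x.pE S1
  inj {i j} h := by
    cases i <;> cases j
    · exact S1.inj _
    · exact fun a b e => S1.inj (x.oE h) (congrArg Subtype.val e)
    · rcases x.up h.2 with hN | hC
      · exact fun a b e => nA_inj _ h.1 (S1.inj (x.old_mono hN) (by rwa [pE_N h hN, pE_N h hN] at e))
      · exact fun a b e => cA_inj _ h.1 (S1.inj (x.old_mono hC) (by rwa [pE_C h hC, pE_C h hC] at e))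
    · exact fun a b e => RS.ext ((x.Sk S1).inj (KK.EE h) (congrArg Subtype.val e))
  e_refl {i} h y := by
    cases i
    · exact S1.e_refl _ y
    · exact RS.ext ((x.Sk S1).e_refl _ y.1)
  e_trans {i j k} h h' y := by
    cases i <;> cases j <;> cases k
    · exact S1.e_trans _ _ y
    · exact RS.ext (S1.e_trans _ _ y)
    · rcases x.up h'.2 with hN | hC
      · rw [pE_N h' hN, nA_low]
        exact S1.e_trans _ _ y
      · rw [pE_C h' hC, cA_low]
        exact S1.e_trans _ _ y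
    · exact RS.ext (S1.e_trans _ _ y)
    · rcases x.up h.2 with hN | hC
      · rw [pE_N h hN, pE_N (h.trans h') (le_trans (α := I) hN h')]
        exact S1.e_trans _ _ _
      · rw [pE_C h hC, pE_C (h.trans h') (le_trans (α := I) hC h')]
        exact S1.e_trans _ _ _
    · exact absurd h'.1 h.2
    · rcases x.up h'.2 with hN | hC
      · rw [pE_N h' hN, nA_pet, pE_N (h.trans h') hN]
      · rw [pE_C h' hC, cA_pet, pE_C (h.trans h') hC]
    · exact RS.ext ((x.Sk S1).e_trans _ _ y.1)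

/-- the centres -/
@[reducible] def pc : x.TI → x.TJ
  | .old u => .old u
  | .pet j => .E j

/-- the inclusions -/
noncomputable def pκ : ∀ i, Hm ((x.S2 S1).X i) (S1.X (x.pc i))
  | .old _ => CompleteLatticeHom.id _
  | .pet j => (pet_sub (x.Sk S1) j).inc

theorem pκ_inj (i : x.TI) : Function.Injective (x.pκ S1 i) := by
  cases i
  exacts [Function.injective_id, Subtype.val_injective]

theorem jNY : (TJ.old x.nN : x.TJ) ≤ .Y := le_refl x.nN
theorem jEY {j : J} (h : j ≤ τ.top) : (TJ.E j : x.TJ) ≤ .Y := h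
theorem jEE {j j' : J} (h : j ≤ j') : (TJ.E j : x.TJ) ≤ .E j' := h

open Classical in
/-- the chains for the arrows -/
noncomputable def pup : ∀ {i j : x.TI}, j ≤ i → Ch (x.pc i) (x.pc j)
  | .old _, .old _, h => .emb (x.old_mono h) (.nil _)
  | .pet _, .old _, h => .emb (x.oE h) (.nil _)
  | .pet _, .pet _, h => .emb (x.jEE h) (.nil _)
  | .old v, .pet _, h =>
      if hN : x.nN ≤ v then .emb (x.old_mono hN) (.prj x.jNY (.emb (x.jEY h.1) (.nil _)))
      else .emb (x.old_mono ((x.up h.2).resolve_left hN)) (.prj (x.old_mono x.CM)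
        (.emb (x.old_mono x.NM) (.prj x.jNY (.emb (x.jEY h.1) (.nil _)))))

open Classical in
/-- the chains for the projections -/
noncomputable def pdn : ∀ {i j : x.TI}, i ≤ j → ℕ → Ch (x.pc i) (x.pc j)
  | .old _, .old _, h, _ => .prj (x.old_mono h) (.nil _)
  | .old _, .pet _, h, _ => .prj (x.oE h) (.nil _)
  | .pet j, .pet _, h, n => ((loop τ j n).map x.kj x.kj_mono).cat (.prj (x.jEE h) (.nil _))
  | .pet j, .old v, h, n => ((loop τ j n).map x.kj x.kj_mono).cat
      (.prj (x.jEY h.1) (.emb x.jNY (if hN : x.nN ≤ v then .prj (x.old_mono hN) (.nil _)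
        else .prj (x.old_mono x.NM) (.emb (x.old_mono x.CM)
          (.prj (x.old_mono ((x.up h.2).resolve_left hN)) (.nil _))))))

/-- the expansion data -/
noncomputable def xp : Xp x.TI x.TJ ℕ := ⟨x.pc, x.pup, x.pdn⟩

theorem p_pet {j j' : J} (h : (TI.pet j : x.TI) ≤ .pet j') (y : (x.S2 S1).X (.pet j')) :
    ((x.S2 S1).p h y).1 = ⨆ n, (loop τ j n).op (x.Sk S1) ((x.Sk S1).p (KK.EE h) y.1) :=
  loop_eq fun _ => pj_le.trans (pj_le (f := (x.Sk S1).e (KK.EE h))).symm

theorem xp_ok : x.xp.Ok (x.S2 S1) S1 (x.pκ S1) where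
  up {i j} h y := by
    cases i <;> cases j
    · rfl
    · rename_i v _
      by_cases hN : x.nN ≤ v
      · simp only [xp, pup, dif_pos hN]
        exact pE_N h hN y
      · simp only [xp, pup, dif_neg hN]
        exact pE_C h ((x.up h.2).resolve_left hN) y
    · rfl
    · rfl
  dn {i j} h y := by
    cases i <;> cases j
    · exact (iSup_const (ι := ℕ)).symm
    · exact Eq.trans (eq_of_forall_ge_iff fun _ =>
        pj_le.trans (pj_le (f := S1.e (x.oE h))).symm) (iSup_const (ι := ℕ)).symm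
    · rename_i v
      simp only [xp, pdn, Ch.op_cat, Ch.op_map]
      refine loop_eq fun b => pj_le.trans ?_
      by_cases hN : x.nN ≤ v
      · simp only [dif_pos hN]
        exact (iff_of_eq (congrArg (y ≤ ·) (pE_N h hN b))).trans
          (pj_le.symm.trans (le_nA (x.Sk S1) h.1))
      · simp only [dif_neg hN]
        exact (iff_of_eq (congrArg (y ≤ ·) (pE_C h ((x.up h.2).resolve_left hN) b))).trans
          (pj_le.symm.trans ((le_cA (x.Sk S1) h.1).trans (le_nA (x.Sk S1) h.1)))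
    · simp only [xp, pdn, Ch.op_cat, Ch.op_map]
      exact x.p_pet S1 h y

theorem S2_K (h : S1.K) : (x.S2 S1).K := (x.xp_ok S1).K (x.pκ_inj S1) h

end Tix

end Pool.Agent.Lib.MP_f79ffc_lc.U
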