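import Pool.Agent.Lib.MP_f79ffc_lc.U.T.Defs
import Pool.Agent.Lib.MP_f79ffc_lc.U.P.Main
import Pool.Agent.Lib.MP_f79ffc_lc.R.Lnk

/-!
The common random step of the token.
-/

namespace Pool.Agent.Lib.MP_f79ffc_lc.U

open Pool.Agent.Lib.MP_5d9fac_lc Pool.Agent.Lib.MP_f79ffc_lc.R Cardinal

variable {R J L I : Type} [Preorder R] [Preorder J] [Preorder L] [Preorder I] {τ : Tp R J L}

namespace Tix

variable (x : Tix τ I)

/-- low nodes -/
def rbLow : x.TJ → Prop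
  | .old u => x.low u
  | _ => False

/-- core nodes -/
def rbCore : x.TJ → Prop
  | .old u => ¬ x.low u ∧ ¬ x.nN ≤ u
  | _ => False

/-- nodes above `M` -/
def rbM : x.TJ → Prop
  | .old u => x.nM ≤ u
  | _ => False

variable {x}

theorem rbM_le : ∀ {u : x.TJ}, x.rbM u → x.nM ≤ x.sh u
  | .old _, h => h

theorem rbLow_le : ∀ {u v : x.TJ}, u ≤ v → x.rbLow v → x.rbLow u
  | .old _, .old _, h, h' => x.low_le h h'
  | .Y, .old _, h, _ => h.elim
  | .E _, .old _, h, _ => h.elim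

theorem rbM_up : ∀ {u v : x.TJ}, u ≤ v → x.rbM u → x.rbM v
  | .old _, .old _, h, h' => le_trans (α := I) h' h
  | .old _, .Y, h, h' => x.MN (le_trans (α := I) h' h)
  | .old _, .E _, h, h' => x.MN (le_trans (α := I) h' h.2)

theorem rbM_core : ∀ {u : x.TJ}, x.rbM u → ¬ x.rbCore u
  | .old _, h, h' => h'.2 (x.NM.trans h)

theorem rbM_low : ∀ {u : x.TJ}, x.rbM u → ¬ x.rbLow u
  | .old _, h, h' => x.low_N (x.low_le (x.NM.trans h) h')

theorem rbCore_iff : ∀ {u v w : x.TJ}, u ≤ v → v ≤ w → ¬ x.rbLow u → ¬ x.rbM v → x.rbM w →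
    (x.rbCore v ↔ x.rbCore u)
  | .old _, .old _, .old _, h, _, h1, h2, _ =>
    ⟨fun c => ⟨h1, fun e => c.2 (le_trans (α := I) e h)⟩, fun c => ⟨fun e => h1 (x.low_le h e),
      fun e => h2 (x.both e (le_trans (α := I) ((x.up h1).resolve_left c.2) h))⟩⟩
  | .Y, .old _, _, h, _, _, _, _ => h.elim
  | .E _, .old _, _, h, _, _, _, _ => h.elim
  | _, .Y, .old _, _, h, _, _, _ => h.elim
  | _, .E _, .old _, _, h, _, _, _ => h.elim

/-- the cell of a piece -/
def rbTc : Pc → List Bool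
  | none => []
  | some p => p.1

open Classical in
/-- the cell that is moved to a piece -/
noncomputable def rbCc (u w : x.TJ) (l : Pc) : List Bool :=
  if x.rbCore u ∧ x.rbM w then (match l with | none => [] | some p => root p.2) else rbTc l

theorem rbCc_eq {u w : x.TJ} (h : ¬ (x.rbCore u ∧ x.rbM w)) : rbCc u w = rbTc :=
  funext fun _ => if_neg h

theorem rbCc_some {u w : x.TJ} (h : x.rbCore u ∧ x.rbM w) (t : List Bool) (k : ℕ) :
    rbCc u w (some (t, k)) = root k := if_pos h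

theorem rbCc_congr {u w u' w' : x.TJ} (h : x.rbCore u ∧ x.rbM w ↔ x.rbCore u' ∧ x.rbM w') :
    rbCc u w = rbCc u' w' := funext fun _ => by
  by_cases c : x.rbCore u ∧ x.rbM w
  · exact (if_pos c).trans (if_pos (h.1 c)).symm
  · exact (if_neg c).trans (if_neg fun c' => c (h.2 c')).symm

end Tix

namespace Tin

open Tix

variable (z : Tin τ I)

theorem Φ_rmap {u v : KK τ} (h : u ≤ v) (E : RX (z.Sk.X u)) :
    rmap (z.m.ι v) (rmap (z.Sk.e h) E) = rmap (z.S.e (z.x.κ_mono h)) (rmap (z.m.ι u) E) :=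
  (rmap_rmap (e'' := (z.m.ι v).comp (z.Sk.e h)) (fun _ => rfl) E).trans
    (rmap_rmap (fun y => z.m.comm h y) E).symm

/-- the truth values of the pieces -/
noncomputable def rbβ (u : z.x.TJ) : Pc → z.S0.X u
  | none => ⨅ _ : z.x.rbM u, ⊥
  | some p => ⨆ h : z.x.rbM u, z.S.e (rbM_le h) (z.m.ι (.nd .M) (z.g.β p.1 p.2))

/-- the landing sets -/
noncomputable def rbLand : ∀ u : z.x.TJ, RX (z.S0.X u)
  | .old u => ⨅ h : z.x.nM ≤ u, rmap (z.S.e h) (z.Φ (.nd .M) ⊤)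
  | .Y => z.Φ (.nd .Y) ⊤
  | .E j => z.Φ (.nd (.E j)) ⊤

variable {z}

theorem rbβ_some {u : z.x.TJ} (h : z.x.rbM u) (t : List Bool) (k : ℕ) :
    z.rbβ u (some (t, k)) = z.S.e (rbM_le h) (z.m.ι (.nd .M) (z.g.β t k)) := iSup_pos h

theorem rbβ_none {u : z.x.TJ} (h : z.x.rbM u) : z.rbβ u none = ⊥ := iInf_pos h

theorem rbβ_e {u w : z.x.TJ} (h : u ≤ w) (hu : z.x.rbM u) :
    ∀ l, z.rbβ w l = z.S0.e h (z.rbβ u l)
  | none => by rw [rbβ_none hu, rbβ_none (rbM_up h hu), map_bot]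
  | some (t, k) => by
    rw [rbβ_some hu, rbβ_some (rbM_up h hu)]
    exact (z.S.e_trans _ _ _).symm

theorem rbLand_M : ∀ {u : z.x.TJ} (h : z.x.rbM u),
    z.rbLand u = rmap (z.S.e (rbM_le h)) (z.Φ (.nd .M) ⊤)
  | .old _, h => iInf_pos (f := fun h : z.x.nM ≤ _ => rmap (z.S.e h) (z.Φ (.nd .M) ⊤)) h

theorem rbLand_old {u : I} (h : ¬ z.x.nM ≤ u) : z.rbLand (.old u) = ⊤ := iInf_neg h

theorem rbLand_low : ∀ {u : z.x.TJ}, z.x.rbLow u → z.rbLand u = ⊤
  | .old u, h => rbLand_old fun e => rbM_low (u := .old u) e h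

variable (z)

theorem rb_β_le (t : List Bool) (k : ℕ) : ri (z.g.β t k) ⊓ cyl t ≤ z.g.Φ (.nd .M) ⊤ := by
  refine le_of_sh ?_
  have h := z.g.Φ_CM t k ⊤
  rw [z.g.Φ_C, map_top, map_top, inf_top_eq] at h
  rw [sh_ri, ← h]
  exact inf_le_right

/-- the pieces of a node -/
noncomputable def rbP (u : z.x.TJ) : Pcs (z.S0.X u) Pc where
  β := z.rbβ u
  tc := rbTc
  disj l l' hp h := by
    by_cases hu : z.x.rbM u
    · rcases l with _ | ⟨t, k⟩
      · exact absurd (by rw [rbβ_none hu, bot_inf_eq]) h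
      rcases l' with _ | ⟨t', k'⟩
      · exact absurd (by rw [rbβ_none hu, inf_bot_eq]) h
      rw [rbβ_some hu, rbβ_some hu, ← map_inf, ← map_inf] at h
      have h1 : z.g.β t k ⊓ z.g.β t' k' ≠ ⊥ := fun e => h (by rw [e, map_bot, map_bot])
      have h2 : ri (z.g.β t k ⊓ z.g.β t' k') ⊓ cyl t' ≠ ⊥ :=
        Pos_ne_bot.1 (by rwa [Pos_ri_inf_cyl])
      obtain ⟨rfl, rfl⟩ := z.g.disj t k t' k' (ne_bot_of_le (le_inf
        (inf_le_inf (hm_mono _ inf_le_left) (cyl_anti hp))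
        (inf_le_inf_right _ (hm_mono _ inf_le_right))) h2)
      rfl
    · rcases l with _ | p
      · rcases l' with _ | p'
        · rfl
        · exact absurd (by rw [show z.rbβ u (some p') = ⊥ from iSup_neg hu, inf_bot_eq]) h
      · exact absurd (by rw [show z.rbβ u (some p) = ⊥ from iSup_neg hu, bot_inf_eq]) h

variable {z}

theorem rbO_top {u : z.x.TJ} (h : ¬ z.x.rbM u) : (z.rbP u).o = ⊤ :=
  top_unique (le_iSup_of_le none (by
    show ⊤ ≤ ri (z.rbβ u none) ⊓ cyl []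
    rw [show z.rbβ u none = ⊤ from iInf_neg h, map_top, cyl_nil, inf_idem]))

theorem rbO_M {u : z.x.TJ} (h : z.x.rbM u) : (z.rbP u).o = z.rbLand u := by
  rw [rbLand_M h]
  refine le_antisymm (iSup_le ?_) ((hm_mono _ (hm_mono _ z.g.cover)).trans ?_)
  · rintro (_ | ⟨t, k⟩)
    · show ri (z.rbβ u none) ⊓ _ ≤ _
      rw [rbβ_none h, map_bot, bot_inf_eq]
      exact bot_le
    · show ri (z.rbβ u (some (t, k))) ⊓ cyl t ≤ _
      have := hm_mono (rmap (z.S.e (rbM_le h))) (hm_mono (rmap (z.m.ι (.nd .M))) (z.rb_β_le t k))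
      rw [map_inf, map_inf, rmap_ri, rmap_ri, rmap_cyl, rmap_cyl] at this
      rw [rbβ_some h]
      exact this
  · simp only [map_iSup, map_inf, rmap_ri, rmap_cyl]
    exact iSup₂_le fun t k => le_iSup_of_le (some (t, k))
      (inf_le_inf_right _ (hm_mono _ (rbβ_some h t k).ge))

theorem rbLand_le (u : z.x.TJ) : z.rbLand u ≤ (z.rbP u).o := by
  by_cases h : z.x.rbM u
  · exact (rbO_M h).ge
  · exact (rbO_top h).ge.trans' le_top

theorem rbLand_E {j j' : J} (h : j ≤ j') :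
    z.rbLand (.E j') = rmap (z.S.e (z.x.EE h)) (z.rbLand (.E j)) := by
  have := z.g.Φ_EE h ⊤
  rw [map_top] at this
  exact (congrArg (rmap (z.m.ι (.nd (.E j')))) this).trans (z.Φ_rmap (KK.EE h) _)

theorem rbLand_Y {j : J} (h : j ≤ τ.top) :
    z.rbLand .Y = rmap (z.S.e ((z.x.EE h).trans z.x.EY)) (z.rbLand (.E j)) := by
  have := z.g.Φ_EY h ⊤
  rw [map_top] at this
  exact (congrArg (rmap (z.m.ι (.nd .Y))) this).trans (z.Φ_rmap (KK.EY h) _)

theorem rbLand_alt : ∀ {u w : z.x.TJ} (h : u ≤ w), z.rbLand u = ⊤ ∨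
    (z.rbLand w = rmap (z.S0.e h) (z.rbLand u) ∧ ¬ z.x.rbCore u)
  | .old u, w, h => by
    by_cases hu : z.x.nM ≤ u
    · refine Or.inr ⟨?_, rbM_core (u := .old u) hu⟩
      rw [rbLand_M (rbM_up h hu), rbLand_M (u := .old u) hu]
      exact (rmap_rmap (fun y => z.S.e_trans _ _ y) _).symm
    · exact Or.inl (rbLand_old hu)
  | .Y, .Y, _ => Or.inr ⟨(rmap_id (z.S.e_refl _) _).symm, id⟩
  | .E _, .E _, h => Or.inr ⟨rbLand_E (z := z) h, id⟩
  | .E _, .Y, h => Or.inr ⟨rbLand_Y (z := z) h, id⟩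
  | .Y, .old _, h => h.elim
  | .Y, .E _, h => h.elim
  | .E _, .old _, h => h.elim

theorem rbPos_E (j : J) : Pos (z.rbLand (.E j)) = ⊤ := by
  have := z.g.full j ⊤
  rw [Tp.pA, pj_top (τ.St.inj _), map_top, map_top, top_le_iff] at this
  exact (Pos_rmap _ _).trans (by rw [this, map_top])

theorem rbPos : ∀ u : z.x.TJ, Pos (z.rbLand u) = ⊤
  | .E j => rbPos_E j
  | .Y => by
    rw [rbLand_Y (τ.bot_le _)]
    exact (Pos_rmap _ _).trans (by rw [rbPos_E, map_top])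
  | .old u => by
    by_cases hu : z.x.nM ≤ u
    · have h : Pos (z.g.Φ (.nd .M) ⊤) = ⊤ := top_unique ((z.g.β_top 0).ge.trans (iSup_le fun t =>
        (Pos_ri_inf_cyl _ t).ge.trans (Pos_mono (z.rb_β_le t 0))))
      rw [rbLand_M (u := .old u) hu]
      exact (Pos_rmap _ _).trans (by rw [Tin.Φ, Pos_rmap, h, map_top, map_top])
    · rw [rbLand_old hu]
      exact pj_top ri_inj

/-- the arrows inside the random extensions -/
noncomputable def rbE {u w : z.x.TJ} (h : u ≤ w) (H : RX (z.S0.X u)) : RX (z.S0.X w) :=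
  z.rbLand w ⊓ (z.rbP w).mv (rbCc u w) (rmap (z.S0.e h) H)

theorem rbE_link {u w : z.x.TJ} (h : u ≤ w) (l : Pc) (H : RX (z.S0.X u)) :
    ri (z.rbβ w l) ⊓ sh (rbTc l) (rbE h H) =
      ri (z.rbβ w l) ⊓ sh (rbTc l) (z.rbLand w) ⊓ rmap (z.S0.e h) (sh (rbCc u w l) H) := by
  rw [rbE, map_inf, inf_left_comm, rmap_sh]
  exact (congrArg (_ ⊓ ·) ((z.rbP w).sh_mv _ _ l)).trans (by rw [inf_left_comm, inf_assoc]; rfl)

theorem rbE_ri {u w : z.x.TJ} (h : u ≤ w) (a : z.S0.X u) :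
    rbE h (ri a) = z.rbLand w ⊓ ri (z.S0.e h a) := by
  rw [rbE, rmap_ri, Pcs.mv_ri, ← inf_assoc, inf_eq_left.2 (rbLand_le w)]

theorem rbE_plain {u w : z.x.TJ} (h : u ≤ w) (hc : ¬ (z.x.rbCore u ∧ z.x.rbM w))
    (H : RX (z.S0.X u)) : rbE h H = z.rbLand w ⊓ rmap (z.S0.e h) H := by
  rw [rbE, rbCc_eq hc]
  exact (congrArg (_ ⊓ ·) ((z.rbP w).mv_tc _)).trans
    (by rw [← inf_assoc, inf_eq_left.2 (rbLand_le w)])

theorem rbE_inf {u w : z.x.TJ} (h : u ≤ w) (H H' : RX (z.S0.X u)) :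
    rbE h (H ⊓ H') = rbE h H ⊓ rbE h H' := by
  rw [rbE, map_inf, Pcs.mv_inf, inf_inf_distrib_left]
  rfl

theorem rbE_sSup {u w : z.x.TJ} (h : u ≤ w) (s : Set (RX (z.S0.X u))) :
    rbE h (sSup s) = ⨆ H ∈ s, rbE h H := by
  simp only [rbE, sSup_eq_iSup, map_iSup, Pcs.mv_iSup, inf_iSup_eq]

theorem rbE_land {u w : z.x.TJ} (h : u ≤ w) : rbE h (z.rbLand u) = z.rbLand w := by
  rcases rbLand_alt h with e | ⟨e, hc⟩
  · rw [e, ← map_top (ri (X := z.S0.X u)), rbE_ri, map_top, map_top, inf_top_eq]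
  · rw [rbE_plain h fun c => hc c.1, ← e, inf_idem]

theorem rbE_trans {u v w : z.x.TJ} (h : u ≤ v) (h' : v ≤ w) {H : RX (z.S0.X u)}
    (hH : z.x.rbLow u → ∃ a, ri a = H) : rbE h' (rbE h H) = rbE (h.trans h') H := by
  by_cases hu : z.x.rbLow u
  · obtain ⟨a, rfl⟩ := hH hu
    rw [rbE_ri, rbE_inf, rbE_land, rbE_ri, rbE_ri, z.S0.e_trans, ← inf_assoc, inf_idem]
  rw [show rbE h H = z.rbLand v ⊓ _ from rfl, rbE_inf, rbE_land, rbE, ← inf_assoc, inf_idem, rbE]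
  congr 1
  have k := rmap_rmap (z.S0.e_trans h h')
  by_cases hv : z.x.rbM v
  · rw [rbCc_eq fun c => rbM_core hv c.1, rbCc_congr (u := u) (w := w) (u' := u) (w' := v)
      (and_congr_right fun _ => iff_of_true (rbM_up h' hv) hv)]
    refine (z.rbP w).glue_congr fun l => ?_
    have := congrArg (rmap (z.S0.e h')) ((z.rbP v).sh_mv (rbCc u v) (rmap (z.S0.e h) H) l)
    rw [map_inf, map_inf, rmap_ri, rmap_sh, rmap_sh, k] at this
    rw [show (z.rbP w).β l = _ from rbβ_e h' hv l]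
    exact this
  · rw [rbCc_eq (u := u) (w := v) fun c => hv c.2]
    have e : (z.rbP v).mv rbTc (rmap (z.S0.e h) H) = rmap (z.S0.e h) H :=
      ((z.rbP v).mv_tc _).trans (by rw [rbO_top hv, top_inf_eq])
    rw [e, k, rbCc_congr (u := v) (w := w) (u' := u) (w' := w)
      (and_congr_left fun c => rbCore_iff h h' hu hv c)]

theorem rb_match {u w : z.x.TJ} (c : z.x.rbCore u ∧ z.x.rbM w) (k : ℕ) :
    ⨆ l : {l // rbCc u w l = root k}, (z.rbP w).β l.1 = ⊤ := by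
  refine top_unique ?_
  rw [← map_top (z.S.e (rbM_le c.2)), ← map_top (z.m.ι (.nd .M)), ← z.g.β_top k, map_iSup,
    map_iSup]
  exact iSup_le fun t => le_iSup_of_le ⟨some (t, k), rbCc_some c t k⟩ (rbβ_some c.2 t k).ge

theorem rb_rich {u w : I} (h : u ≤ w) (hu : z.x.nN ≤ u) :
    Rich (z.S.e h) (z.rbLand (.old u)) (z.rbLand (.old w)) := by
  by_cases hw : z.x.nM ≤ w
  · rcases z.x.mid hu h hw with h1 | h1
    · rcases rbLand_alt (z.x.old_mono h) with e | ⟨e, -⟩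
      · rw [rbLand_M (u := .old w) hw, ← rmap_rmap (z.S.e_trans h1 h), ← rbLand_M (u := .old u) h1]
        exact rich_rmap _ _
      · rw [e]
        exact rich_rmap _ _
    · have U1 := Unb.up (g := z.S.e (z.x.NM.trans hw)) (k := z.S.e hw) (z.S.e_trans z.x.NM hw)
        (z.kNM _ z.g.T_mat z.g.T_unb)
      have U2 : Unb (z.S.e h) fun n k => z.S.e hw (z.m.ι (.nd .M) (z.g.T n k)) :=
        Unb.down (f := z.S.e h1) (k := CompleteLatticeHom.id _) Function.injective_id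
          (z.S.e_trans h1 _) U1
      have r := rich_oZ (θ := fun n k => z.S.e hw (z.m.ι (.nd .M) (z.g.θ n k))) (fun n k => by
        simpa only [map_iSup] using
          hm_mono (z.S.e hw) (hm_mono (z.m.ι (.nd .M)) (z.g.T_le n k))) U2 (z.rbLand (.old u))
      refine fun E p h0 h2 h3 => ne_bot_of_le
        (inf_le_inf_right _ (inf_le_inf_left _ ?_)) (r E p h0 h2 h3)
      rw [rbLand_M (u := .old w) hw]
      refine iSup₂_le fun n k => ?_
      have := hm_mono (rmap (z.S.e hw)) (hm_mono (rmap (z.m.ι (.nd .M))) (z.g.θ_le n k))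
      rwa [map_inf, map_inf, rmap_ri, rmap_ri, rmap_rg, rmap_rg] at this
  · rw [rbLand_old hw]
    exact rich_top _ _

theorem rb_far {u : I} (h : u ≤ z.x.nN) {E : RX (z.S.X u)} (hE : E ≠ ⊥) :
    z.rbLand .Y ⊓ rmap (z.S.e (h.trans z.x.NY)) E ≠ ⊥ := by
  obtain ⟨s, -, -, hs⟩ := exists_of_Ev_ne_bot
    (ne_bot_of_le (le_Ev_Big (ε := 1 / 4) (by norm_num) E) hE) 0
  obtain ⟨a, h1, h2⟩ := z.g.far s
  have h3 : pj (z.S.e (h.trans z.x.NY)) (z.m.ι (.nd .Y) a) = ⊤ := by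
    have := z.m.corr KK.NY a
    rw [h1, map_top] at this
    rw [← pj_pj (z.S.e_trans h z.x.NY)]
    exact (congrArg (pj (z.S.e h)) this).trans (pj_top (z.S.inj h))
  have h4 : z.m.ι (.nd .Y) a ≤ Big (1 / 2) (sh s (z.rbLand .Y)) :=
    (hm_mono _ h2).trans (by rw [← Big_rmap, rmap_sh]; rfl)
  have h5 := (inf_map_ne_bot (f := z.S.e (h.trans z.x.NY))).2 (by rw [h3, top_inf_eq]; exact hs)
  rw [← Big_rmap, rmap_sh] at h5
  have h6 := ne_bot_of_le (((inf_le_inf_right _ h4).trans (Big_inf _ _ _ _)).trans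
    (Big_le_Pos (by norm_num) _)) h5
  rw [Pos_ne_bot, ← map_inf (sh s)] at h6
  exact fun e => h6 (by rw [e, map_bot])

theorem rbE_inj {u w : z.x.TJ} (h : u ≤ w) {H : RX (z.S0.X u)} (h1 : H ≤ z.rbLand u)
    (hH : z.x.rbLow u → ∃ a, ri a = H) (h0 : rbE h H = ⊥) : H = ⊥ := by
  by_cases hu : z.x.rbLow u
  · obtain ⟨a, rfl⟩ := hH hu
    rw [rbE_ri] at h0
    rw [hm_inj_iff.1 (z.S0.inj h) _ (inf_ri_eq_bot (rbPos w) h0), map_bot]
  have k := hm_inj_iff.1 (rmap_inj (z.S0.inj h)) H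
  by_cases c : z.x.rbCore u ∧ z.x.rbM w
  · rw [rbE, ← rbO_M c.2, inf_eq_right.2 (Pcs.mv_le _ _ _)] at h0
    exact k ((z.rbP w).mv_eq_bot (rb_match c) h0)
  rw [rbE_plain h c] at h0
  have k1 : z.rbLand w = rmap (z.S0.e h) (z.rbLand u) → H = ⊥ := fun e => by
    rw [e, ← map_inf (rmap (z.S0.e h)), inf_eq_right.2 h1] at h0
    exact k h0
  rcases u with u | _ | j
  · rcases w with w | _ | j
    · by_cases hN : z.x.nN ≤ u
      · exact (rb_rich (z := z) h hN).inj (z.S.inj h) h1 h0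
      · rw [rbLand_old fun e => c ⟨⟨hu, hN⟩, e⟩, top_inf_eq] at h0
        exact k h0
    · by_contra hc
      exact rb_far h hc h0
    · exact absurd h.1 hu
  · rcases w with w | _ | j
    exacts [h.elim, k1 (rmap_id (z.S.e_refl _) _).symm, h.elim]
  · rcases w with w | _ | j
    exacts [h.elim, k1 (rbLand_Y h), k1 (rbLand_E (z := z) h)]

theorem rbE_corr {u w : I} (h : u ≤ w) {y : z.S.X w} {H : RX (z.S.X u)}
    (hH : z.x.low u → ∃ a, ri a = H)
    (h0 : z.rbLand (.old w) ⊓ ri y ≤ rbE (z.x.old_mono h) H) :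
    z.rbLand (.old u) ⊓ ri (z.S.p h y) ≤ H := by
  by_cases hu : z.x.low u
  · obtain ⟨a, rfl⟩ := hH hu
    rw [rbE_ri] at h0
    exact inf_le_right.trans (hm_mono _ (pj_le.2
      ((inf_ri_le_iff (rbPos (.old w))).1 (h0.trans inf_le_right))))
  by_cases c : z.x.rbCore (.old u) ∧ z.x.rbM (.old w)
  · have h1 := h0.trans inf_le_right
    rw [← rbO_M c.2] at h1
    exact inf_le_right.trans (((z.rbP (.old w)).mv_corr (rb_match c) _).1 h1)
  rw [rbE_plain _ c] at h0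
  by_cases hN : z.x.nN ≤ u
  · exact (rb_rich h hN).corr (h0.trans inf_le_right)
  · rw [rbLand_old fun e => c ⟨⟨hu, hN⟩, e⟩] at h0
    exact (rich_top _ _).corr (h0.trans inf_le_right)

variable (z)

/-- the algebra of a node -/
noncomputable def rbS (u : z.x.TJ) : RS (RX (z.S0.X u)) where
  top := z.rbLand u
  car := {H | H ≤ z.rbLand u ∧ (z.x.rbLow u → ∃ a, ri a = H)}
  le_top _ h := h.1
  top_mem := ⟨le_rfl, fun h => ⟨⊤, by rw [map_top, rbLand_low h]⟩⟩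
  sSup_mem s hs := ⟨sSup_le fun _ h => (hs h).1,
    fun h => (rng ri).sSup_mem s fun _ hx => (hs hx).2 h⟩
  inf_mem _ h _ h' := ⟨inf_le_left.trans h.1, fun e => (rng ri).inf_mem _ (h.2 e) _ (h'.2 e)⟩
  cpl_mem _ h := ⟨inf_le_left, fun e => by
    rw [rbLand_low e]
    exact (rng ri).cpl_mem _ (h.2 e)⟩

theorem rb_mem (u : z.x.TJ) (a : z.S0.X u) : z.rbLand u ⊓ ri a ∈ (z.rbS u).car :=
  ⟨inf_le_left, fun h => ⟨a, by rw [rbLand_low h, top_inf_eq]⟩⟩

/-- the system after the random step -/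
noncomputable def rbSys : Sys z.x.TJ where
  X u := (z.rbS u).T
  inst _ := inferInstance
  e {u w} h := rel (z.rbS u) (z.rbS w) (rbE h) (fun H hH => ⟨inf_le_left, fun e => by
      obtain ⟨a, rfl⟩ := hH.2 (rbLow_le h e)
      exact (rbE_ri h a).symm ▸ (z.rb_mem w _).2 e⟩) (rbE_sSup h) (rbE_inf h) (rbE_land h)
  inj h := hm_inj_iff.2 fun H e => RS.ext (rbE_inj h H.2.1 H.2.2 (congrArg Subtype.val e))
  e_refl h H := RS.ext ((rbE_plain h (fun c => rbM_core c.2 c.1) H.1).trans (by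
    rw [rmap_id (z.S0.e_refl h), inf_eq_right.2 H.2.1]))
  e_trans h h' H := RS.ext (rbE_trans h h' H.2.2)

/-- the pair -/
noncomputable def rbPair : RXP z.S0 z.rbSys Pc where
  v _ H := H.1
  v_inf _ _ _ := rfl
  v_sSup _ s := RS.val_sSup s
  v_le _ _ _ h := h
  ι u := RS.lift (fun a => z.rbLand u ⊓ ri a) (z.rb_mem u)
    (fun s => by rw [sSup_eq_iSup]; simp only [map_iSup, inf_iSup_eq])
    (fun a b => by rw [map_inf, inf_inf_distrib_left]) (by rw [map_top, inf_top_eq]; rfl)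
  v_ι _ _ := rfl
  low := z.x.rbLow
  low_top _ := rbLand_low
  low_surj u h H := by
    obtain ⟨a, e⟩ := H.2.2 h
    exact ⟨a, RS.ext (show z.rbLand u ⊓ ri a = H.1 by rw [rbLand_low h, top_inf_eq, e])⟩
  onto _ h E hE := ⟨⟨E, hE, fun e => absurd e h⟩, rfl⟩
  β := z.rbβ
  tc := rbTc
  cc := rbCc
  cover := rbLand_le
  link h l H := rbE_link h l H.1

theorem exists_rnd : Nonempty z.Rnd :=
  ⟨{S1 := z.rbSys
    P := z.rbPair
    low_old := fun _ => Iff.rfl
    low_Y := id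
    low_E := fun _ => id
    tc_none := rfl
    tc_some := fun _ _ => rfl
    cc_CM := rbCc_some (u := .old z.x.nC) (w := .old z.x.nM) ⟨⟨z.x.low_C, z.x.NC⟩, le_refl z.x.nM⟩
    cc_eq := fun {u v} h hc l => congrFun (rbCc_eq (u := z.x.kj u) (w := z.x.kj v) fun c => by
      rcases u with _ | _ | _ | _ | _ | _
      · exact c.1.1 (z.x.low_R _)
      · exact c.1.2 le_rfl
      · exact c.1.2 z.x.NM
      · exact c.1
      · rcases v with _ | _ | _ | _ | _ | _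
        exacts [h, h, hc rfl rfl, h, z.x.NC (z.x.NM.trans c.2), h]
      · exact c.1) l
    cc_N := fun u l => congrFun (rbCc_eq (u := .old z.x.nN) (w := .old u) fun c => c.1.2 le_rfl) l
    β_none := rbβ_none (u := .old z.x.nM) (le_refl z.x.nM)
    β_some := fun t k => (rbβ_some (u := .old z.x.nM) (le_refl z.x.nM) t k).trans (z.S.e_refl _ _)
    v_top := fun u => by
      rcases u with i | _ | _ | _ | _ | _
      · refine (rbLand_low (u := .old (z.x.nR i)) (z.x.low_R i)).trans ?_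
        rw [Tin.Φ, z.g.Φ_root, map_top, map_top, map_top]
      · refine (rbLand_old z.x.MN).trans ?_
        rw [Tin.Φ, z.g.Φ_N, map_top]
      · exact (rbLand_M (u := .old z.x.nM) (le_refl z.x.nM)).trans (rmap_id (z.S.e_refl _) _)
      · rfl
      · refine (rbLand_old fun e => z.x.NC (z.x.NM.trans e)).trans ?_
        rw [Tin.Φ, z.g.Φ_C, map_top]
      · rfl
    v_old := fun _ => rbLand_old
    ι_inj := fun u => hm_inj_iff.2 fun _ e => inf_ri_eq_bot (rbPos u) (congrArg Subtype.val e)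
    corr := fun {u w} h y => eq_of_forall_ge_iff fun H => by
      rw [pj_le]
      refine ⟨fun e => rbE_corr h H.2.2 e, fun e => le_trans ?_ (hm_mono _ e)⟩
      rw [z.rbPair.comm (z.x.old_mono h)]
      exact hm_mono _ (le_map_pj _ y) }⟩

end Tin

end Pool.Agent.Lib.MP_f79ffc_lc.U
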